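import Pool.Agent.Lib.MP_a4c1f4_lc.BL.Spec

/-!
# MP_a4c1f4_lc, project BL: the price is affine in the tilt; the slope of a path
-/

set_option autoImplicit false

namespace Pool.Agent.MP_a4c1f4_lc.BL

open Finset
open Pool.Agent.MP_a4c1f4_lc.LM (Fz ps sm Opt dec pth zt Run mx cl)

/-- the price is affine in the tilt, the slope is `sg` -/
theorem affP : B_Aff := by
  intro N w θ θ' f g
  unfold sm sg ps
  rw [Finset.mul_sum, ← Finset.sum_sub_distrib, ← Finset.sum_sub_distrib, ← Finset.sum_add_distrib]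
  refine Finset.sum_congr rfl fun k _ => ?_
  ring

namespace AffAux

theorem filt (N a b : ℕ) (hb : b ≤ N) :
    (Ico 1 (N + 1)).filter (fun k => a < k ∧ k ≤ b) = Ioc a b := by
  ext k
  simp only [Finset.mem_filter, Finset.mem_Ico, Finset.mem_Ioc]
  omega

theorem diff_left (v s : ℕ) (f : ℕ → ℤ) (h : s ≤ v) (k : ℕ) :
    (pth v s f k : ℝ) - (f k : ℝ) = if s < k ∧ k ≤ v then 1 else 0 := by
  have h2 : ¬ (v < k ∧ k ≤ s) := by omega
  simp only [pth, if_neg h2]
  split_ifs <;> push_cast <;> ring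

theorem diff_right (v s : ℕ) (f : ℕ → ℤ) (h : v ≤ s) (k : ℕ) :
    (pth v s f k : ℝ) - (f k : ℝ) = -(if v < k ∧ k ≤ s then 1 else 0) := by
  have h2 : ¬ (s < k ∧ k ≤ v) := by omega
  simp only [pth, if_neg h2]
  split_ifs <;> push_cast <;> ring

theorem sum_ind (N : ℕ) (w : ℕ → ℝ) (a b : ℕ) (hb : b ≤ N) :
    ∑ k ∈ Ico 1 (N + 1), w k * (if a < k ∧ k ≤ b then 1 else 0) = ∑ k ∈ Ioc a b, w k := by
  rw [← filt N a b hb, Finset.sum_filter]
  refine Finset.sum_congr rfl fun k _ => ?_
  split_ifs <;> ring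

end AffAux

/-- the slope of a path is its signed length -/
theorem sgP : B_Sg := by
  intro N w v s f hw hv hs
  have h2 : s ≤ v → sg N w f (pth v s f) = ∑ k ∈ Ioc s v, w k := by
    intro h
    unfold sg
    rw [← AffAux.sum_ind N w s v hv]
    exact Finset.sum_congr rfl fun k _ => by rw [AffAux.diff_left v s f h k]
  have h3 : v ≤ s → sg N w f (pth v s f) = -∑ k ∈ Ioc v s, w k := by
    intro h
    unfold sg
    rw [← AffAux.sum_ind N w v s hs, ← Finset.sum_neg_distrib]
    exact Finset.sum_congr rfl fun k _ => by rw [AffAux.diff_right v s f h k]; ring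
  refine ⟨?_, h2, h3⟩
  have hI : Icc 1 N = Ico 1 (N + 1) := by
    ext k
    simp only [Finset.mem_Icc, Finset.mem_Ico]
    omega
  rcases le_total s v with h | h
  · rw [h2 h, abs_of_nonneg (Finset.sum_nonneg fun k _ => hw k), hI, ← AffAux.sum_ind N w s v hv]
    refine Finset.sum_congr rfl fun k _ => ?_
    rw [AffAux.diff_left v s f h k]
    split_ifs <;> simp
  · rw [h3 h, abs_neg, abs_of_nonneg (Finset.sum_nonneg fun k _ => hw k), hI,
      ← AffAux.sum_ind N w v s hs]
    refine Finset.sum_congr rfl fun k _ => ?_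
    rw [AffAux.diff_right v s f h k, abs_neg]
    split_ifs <;> simp

end Pool.Agent.MP_a4c1f4_lc.BL
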