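import Pool.Agent.Lib.MP_a4c1f4_lc.BL.Spec

set_option autoImplicit false

/-!
Online matching on the line, bounded load: rises and falls, the main inequality.
-/

namespace Pool.Agent.MP_a4c1f4_lc.BL

open Finset
open Pool.Agent.MP_a4c1f4_lc.LM (Fz ps sm Opt dec pth zt Run mx cl)

theorem bothP (h1 : B_Rise) (h2 : B_Refl) : B_Both := by
  intro N n m w c v x f S b O L p K hB hL hp hO
  obtain ⟨hB', hsl⟩ := h2 N n m w c v x f S b O hB
  have e1 := h1 N n m w c v x f S b O L p K hB hL hp hO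
  have e2 := h1 N n m _ _ _ _ _ _ b O L p K hB' hL hp hO
  have e3 : ∀ t, ∑ r ∈ range m, (-x (m - (r + 1)) - -x (m - r)) *
      max (sl N (fun k => w (N + 1 - k)) (fun t r k => -f t (m - 1 - r) (N + 1 - k)) t r) 0 =
      ∑ r ∈ range m, (x (r + 1) - x r) * max (-sl N w f t r) 0 := by
    intro t
    rw [← Finset.sum_range_reflect (fun r => (x (r + 1) - x r) * max (-sl N w f t r) 0) m]
    refine sum_congr rfl fun r hr => ?_
    have hr' := mem_range.1 hr
    have a1 : m - 1 - r + 1 = m - r := by omega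
    have a2 : m - (r + 1) = m - 1 - r := by omega
    rw [hsl]
    simp only [a1, a2]
    ring
  have e4 : ∑ t ∈ range n, ∑ r ∈ range m, (x (r + 1) - x r) * max (-sl N w f t r) 0 ≤
      8 / 9 * L * O + 4 / 3 * O + 4 * b / L * (n * p + 260 * b * K * O) := by
    refine le_trans (le_of_eq ?_) e2
    exact sum_congr rfl fun t _ => (e3 t).symm
  have e5 : ∑ t ∈ range n, ∑ r ∈ range m, (x (r + 1) - x r) * |sl N w f t r| =
      ∑ t ∈ range n, ∑ r ∈ range m, (x (r + 1) - x r) * max (sl N w f t r) 0 +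
      ∑ t ∈ range n, ∑ r ∈ range m, (x (r + 1) - x r) * max (-sl N w f t r) 0 := by
    rw [← sum_add_distrib]
    refine sum_congr rfl fun t _ => ?_
    rw [← sum_add_distrib]
    refine sum_congr rfl fun r _ => ?_
    rw [← mul_add]
    congr 1
    rcases le_total 0 (sl N w f t r) with h | h
    · rw [abs_of_nonneg h, max_eq_left h, max_eq_right (by linarith), add_zero]
    · rw [abs_of_nonpos h, max_eq_right h, max_eq_left (by linarith), zero_add]
  rw [e5]
  linarith

theorem mainP (h1 : B_Both) (h2 : B_Num) (h3 : B_Sg) : B_Main := by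
  intro N n m w c v x f S b O hB hn hO
  obtain ⟨K, L, hL, hK, hb⟩ := h2 n b hn hB.one_le
  have hn0 : (0 : ℝ) < n := by
    have : 0 < n := by omega
    exact_mod_cast this
  have hp : 0 < O / n := div_pos hO hn0
  have hnp : (n : ℝ) * (O / n) = O := by
    field_simp
  have hKO : 4 * O < 2 ^ K * (O / n) := by
    calc 4 * O = 4 * (n : ℝ) * (O / n) := by rw [mul_assoc, hnp]
      _ < 2 ^ K * (O / n) := mul_lt_mul_of_pos_right hK hp
  have e1 := h1 N n m w c v x f S b O L (O / n) K hB hL hp hKO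
  have e2 : ∑ r ∈ range m, (x (r + 1) - x r) *
      ∑ t ∈ range n, ∑ k ∈ Icc 1 N, w k * |(f (t + 1) r k : ℝ) - (f t r k : ℝ)| =
      ∑ t ∈ range n, ∑ r ∈ range m, (x (r + 1) - x r) * |sl N w f t r| := by
    rw [sum_comm]
    refine sum_congr rfl fun r hr => ?_
    rw [mul_sum]
    refine sum_congr rfl fun t ht => ?_
    congr 1
    obtain ⟨s, hs, hs2⟩ := hB.run.step t r (mem_range.1 ht) (mem_range.1 hr)
    have e3 := (h3 N w (v t) s (f t r) hB.run.w_nonneg (hB.run.v_le t (mem_range.1 ht)) hs).1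
    rw [← hs2] at e3
    exact e3
  rw [e2]
  refine e1.trans ?_
  rw [hnp]
  calc 2 * (8 / 9 * L * O + 4 / 3 * O + 4 * b / L * (O + 260 * b * K * O)) =
        2 * (8 / 9 * L + 4 / 3 + 4 * b / L * (1 + 260 * b * K)) * O := by ring
    _ ≤ 1000 / 3 * (b * Real.sqrt (Real.log n)) * O := mul_le_mul_of_nonneg_right hb hO.le

end Pool.Agent.MP_a4c1f4_lc.BL
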