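import Pool.Agent.Lib.MP_a4c1f4_lc.BL.Spec

set_option autoImplicit false

/-!
A continuous piecewise affine function whose slopes are at least `-D`.
-/

namespace Pool.Agent.MP_a4c1f4_lc.BL

open Finset

namespace CalcAux

/-- Falling piece. -/
lemma fall (A B σ l L D y0 : ℝ) (hL : 0 < L) (hD : 0 ≤ D) (hy : L * y0 = D) (hA : 0 ≤ A)
    (hB : 0 ≤ B) (hl : 0 ≤ l) (he : B = A + σ * l) (hs : -D ≤ σ) (h0 : σ ≤ 0) :
    max A y0 - max B y0 ≤ L * (l * ((A + B) / 2)) := by
  have hy0 : 0 ≤ y0 := by
    by_contra h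
    push Not at h
    nlinarith
  have hI : 0 ≤ L * (l * ((A + B) / 2)) := by positivity
  have hBA : B ≤ A := by nlinarith
  rcases le_total A y0 with h1 | h1
  · rw [max_eq_right h1, max_eq_right (hBA.trans h1)]
    linarith
  · rw [max_eq_left h1]
    rcases le_or_gt y0 B with h2 | h2
    · rw [max_eq_left h2]
      have e1 : A - B ≤ D * l := by nlinarith
      have e2 : D * l = L * (l * y0) := by rw [← hy]; ring
      have e3 : l * y0 ≤ l * ((A + B) / 2) := mul_le_mul_of_nonneg_left (by linarith) hl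
      have e4 : L * (l * y0) ≤ L * (l * ((A + B) / 2)) := mul_le_mul_of_nonneg_left e3 hL.le
      linarith
    · rw [max_eq_right h2.le]
      have hp : 0 < y0 := lt_of_le_of_lt hB h2
      have e1 : 2 * y0 * (A - y0) ≤ A ^ 2 - y0 ^ 2 := by nlinarith
      have e2 : A ^ 2 - y0 ^ 2 ≤ A ^ 2 - B ^ 2 := by nlinarith
      have e3 : A ^ 2 - B ^ 2 = -σ * (l * (A + B)) := by rw [he]; ring
      have e4 : -σ * (l * (A + B)) ≤ D * (l * (A + B)) :=
        mul_le_mul_of_nonneg_right (by linarith) (by positivity)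
      have e5 : D * (l * (A + B)) = 2 * y0 * (L * (l * ((A + B) / 2))) := by rw [← hy]; ring
      have e6 : 2 * y0 * (A - y0) ≤ 2 * y0 * (L * (l * ((A + B) / 2))) := by linarith
      exact le_of_mul_le_mul_left e6 (by linarith)

/-- Rising piece. -/
lemma rise (A B σ l L y : ℝ) (hL : 0 < L) (hy : L * y = σ) (hA : 0 ≤ A)
    (hB : 0 ≤ B) (hl : 0 ≤ l) (he : B = A + σ * l) (h0 : 0 < σ) :
    max B y - max A y ≤ L * (l * ((A + B) / 2)) := by
  have hp : 0 < y := by
    by_contra h
    push Not at h
    nlinarith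
  have hI : 0 ≤ L * (l * ((A + B) / 2)) := by positivity
  have hBA : A ≤ B := by nlinarith
  rcases le_total y A with h1 | h1
  · rw [max_eq_left h1, max_eq_left (h1.trans hBA)]
    have e2 : σ * l = L * (l * y) := by rw [← hy]; ring
    have e3 : l * y ≤ l * ((A + B) / 2) := mul_le_mul_of_nonneg_left (by linarith) hl
    have e4 : L * (l * y) ≤ L * (l * ((A + B) / 2)) := mul_le_mul_of_nonneg_left e3 hL.le
    linarith
  · rw [max_eq_right h1]
    rcases le_total B y with h2 | h2
    · rw [max_eq_right h2]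
      linarith
    · rw [max_eq_left h2]
      have e1 : 2 * y * (B - y) ≤ B ^ 2 - y ^ 2 := by nlinarith
      have e2 : B ^ 2 - y ^ 2 ≤ B ^ 2 - A ^ 2 := by nlinarith
      have e3 : B ^ 2 - A ^ 2 = σ * (l * (A + B)) := by rw [he]; ring
      have e5 : σ * (l * (A + B)) = 2 * y * (L * (l * ((A + B) / 2))) := by rw [← hy]; ring
      have e6 : 2 * y * (B - y) ≤ 2 * y * (L * (l * ((A + B) / 2))) := by linarith
      exact le_of_mul_le_mul_left e6 (by linarith)

lemma mm (A B y : ℝ) : B - A = (max B y - max A y) + (min B y - min A y) := by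
  have h1 := max_add_min B y
  have h2 := max_add_min A y
  linarith

/-- One piece. -/
lemma piece (A B σ l L D : ℝ) (hL : 0 < L) (hD : 0 ≤ D) (hA : 0 ≤ A)
    (hB : 0 ≤ B) (hl : 0 ≤ l) (he : B = A + σ * l) (hs : -D ≤ σ) :
    l * max σ 0 ≤ L * (l * ((A + B) / 2)) + (max B (D / L) - max A (D / L)) +
      (if 0 < σ then min B (min σ D / L) - min A (min σ D / L) else 0) := by
  have hI : 0 ≤ L * (l * ((A + B) / 2)) := by positivity
  have hy0 : L * (D / L) = D := by field_simp
  rcases le_or_gt σ 0 with h0 | h0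
  · rw [if_neg (not_lt.mpr h0), max_eq_right h0]
    have := fall A B σ l L D (D / L) hL hD hy0 hA hB hl he hs h0
    linarith
  · rw [if_pos h0, max_eq_left h0.le]
    have hBA : A ≤ B := by nlinarith
    rcases le_total σ D with h1 | h1
    · rw [min_eq_left h1]
      have hy : L * (σ / L) = σ := by field_simp
      have e1 := rise A B σ l L (σ / L) hL hy hA hB hl he h0
      have e2 := mm A B (σ / L)
      have e3 : max A (D / L) ≤ max B (D / L) := max_le_max_right _ hBA
      have e4 : B - A = l * σ := by rw [he]; ring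
      linarith
    · rw [min_eq_right h1]
      have e2 := mm A B (D / L)
      have e4 : B - A = l * σ := by rw [he]; ring
      linarith

end CalcAux

theorem calcP : B_Calc := by
  intro m u σ l L D hL hD hu hl hs hσ
  have key : ∀ r ∈ range m, l r * max (σ r) 0 ≤
      L * (l r * ((u r + u (r + 1)) / 2)) + (max (u (r + 1)) (D / L) - max (u r) (D / L)) +
      (if 0 < σ r then min (u (r + 1)) (min (σ r) D / L) - min (u r) (min (σ r) D / L)
        else 0) := by
    intro r hr
    have hr' := mem_range.mp hr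
    exact CalcAux.piece (u r) (u (r + 1)) (σ r) (l r) L D hL hD (hu r hr'.le)
      (hu (r + 1) hr') (hl r hr') (hs r hr') (hσ r hr')
  have h1 := sum_le_sum key
  rw [sum_add_distrib, sum_add_distrib, ← mul_sum,
    sum_range_sub (fun r => max (u r) (D / L)) m] at h1
  have hy0 : 0 ≤ D / L := by positivity
  have h2 : max (u m) (D / L) ≤ u m + D / L := by
    have := hu m le_rfl
    exact max_le (by linarith) (by linarith)
  have h3 : D / L ≤ max (u 0) (D / L) := le_max_right _ _
  linarith

end Pool.Agent.MP_a4c1f4_lc.BL
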