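import Pool.Agent.Lib.MP_a4c1f4_lc.BL.Spec

set_option autoImplicit false

/-!
The number of the active requests (double counting).
-/

namespace Pool.Agent.MP_a4c1f4_lc.BL

open Finset
open Pool.Agent.MP_a4c1f4_lc.LM (Fz ps sm Opt dec pth zt Run mx cl)

namespace CntAux

open Classical in
/-- The edges near the node `v` on the left. -/
noncomputable def E (w : ℕ → ℝ) (d : ℝ) (v : ℕ) : Finset ℕ :=
  (Icc 1 v).filter (fun k => ∑ i ∈ Ioc k v, w i < d)

lemma mem_E (w : ℕ → ℝ) (d : ℝ) (v k : ℕ) :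
    k ∈ E w d v ↔ (1 ≤ k ∧ k ≤ v) ∧ ∑ i ∈ Ioc k v, w i < d := by
  simp [E]

lemma sum_anti (w : ℕ → ℝ) (hw : ∀ k, 0 ≤ w k) (v k s : ℕ) (h : k ≤ s) :
    ∑ i ∈ Ioc s v, w i ≤ ∑ i ∈ Ioc k v, w i := by
  refine sum_le_sum_of_subset_of_nonneg ?_ (fun i _ _ => hw i)
  intro i hi
  rw [mem_Ioc] at hi ⊢
  omega

lemma E_sum (w : ℕ → ℝ) (hw : ∀ k, 0 ≤ w k) (d : ℝ) (v s : ℕ) (hs : s ≤ v)
    (h : d ≤ ∑ i ∈ Ioc s v, w i) : d ≤ ∑ k ∈ E w d v, w k := by
  classical
  set k0 := Nat.findGreatest (fun k => d ≤ ∑ i ∈ Ioc k v, w i) v with hk0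
  have h1 : d ≤ ∑ i ∈ Ioc k0 v, w i :=
    Nat.findGreatest_spec (P := fun k => d ≤ ∑ i ∈ Ioc k v, w i) hs h
  have h2 : ∀ k, k0 < k → k ≤ v → ∑ i ∈ Ioc k v, w i < d := by
    intro k hk hkv
    have := Nat.findGreatest_is_greatest hk hkv
    exact not_le.mp this
  refine h1.trans (sum_le_sum_of_subset_of_nonneg ?_ (fun i _ _ => hw i))
  intro k hk
  rw [mem_Ioc] at hk
  rw [mem_E]
  exact ⟨⟨by omega, hk.2⟩, h2 k hk.1 hk.2⟩

lemma s_lt (w : ℕ → ℝ) (hw : ∀ k, 0 ≤ w k) (d : ℝ) (v s k : ℕ)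
    (h : d ≤ ∑ i ∈ Ioc s v, w i) (hk : k ∈ E w d v) : s < k := by
  by_contra hc
  push Not at hc
  have h1 := sum_anti w hw v k s hc
  have h2 := ((mem_E w d v k).mp hk).2
  linarith

lemma one_le_mx (n m t r k : ℕ) (f : ℕ → ℕ → ℕ → ℤ) (ht : t < n) (hr : r < m)
    (h : f (t + 1) r k = f t r k + 1) : 1 ≤ mx n m f k := by
  by_contra hc
  have h0 : mx n m f k = 0 := by omega
  have h1 : (f t r k).natAbs ≤ mx n m f k :=
    Finset.le_sup (f := fun q : ℕ × ℕ => (f q.1 q.2 k).natAbs) (b := (t, r))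
      (by rw [mem_product]; exact ⟨mem_range.mpr (by simp; omega), mem_range.mpr hr⟩)
  have h2 : (f (t + 1) r k).natAbs ≤ mx n m f k :=
    Finset.le_sup (f := fun q : ℕ × ℕ => (f q.1 q.2 k).natAbs) (b := (t + 1, r))
      (by rw [mem_product]; exact ⟨mem_range.mpr (by simp; omega), mem_range.mpr hr⟩)
  omega

end CntAux

open CntAux in
theorem cntP (h1 : B_Sg) (h2 : B_Crd) (h3 : Pool.Agent.MP_a4c1f4_lc.LM.S_Fst) : B_Cnt := by
  classical
  intro N n m w c v x f S b O d hB hd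
  have hw := hB.run.w_nonneg
  -- the step of an active request
  have hstep : ∀ t, t < n → Act N m w f d t → ∃ r s, r < m ∧ s < v t ∧
      f (t + 1) r = pth (v t) s (f t r) ∧ d ≤ ∑ i ∈ Ioc s (v t), w i := by
    intro t ht ha
    obtain ⟨⟨r, hr, hdr⟩, -⟩ := ha
    obtain ⟨s, hs, he⟩ := hB.run.step t r ht hr
    have hvt := hB.run.v_le t ht
    obtain ⟨-, ha, hb⟩ := h1 N w (v t) s (f t r) hw hvt hs
    have hsl : sl N w f t r = sg N w (f t r) (pth (v t) s (f t r)) := by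
      unfold sl
      rw [he]
    rcases lt_or_ge s (v t) with hlt | hge
    · refine ⟨r, s, hr, hlt, he, ?_⟩
      rw [hsl, ha hlt.le] at hdr
      exact hdr
    · exfalso
      rw [hsl, hb hge] at hdr
      have : 0 ≤ ∑ k ∈ Ioc (v t) s, w k := sum_nonneg (fun k _ => hw k)
      linarith
  set A := (range n).filter (fun t => Act N m w f d t) with hA
  have hmem : ∀ t, t ∈ A ↔ t < n ∧ Act N m w f d t := by
    intro t
    simp [hA]
  -- lower bound
  have hlow : ∀ t ∈ A, d ≤ ∑ k ∈ E w d (v t), w k := by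
    intro t ht
    obtain ⟨ht1, ht2⟩ := (hmem t).mp ht
    obtain ⟨r, s, hr, hs, he, hds⟩ := hstep t ht1 ht2
    exact E_sum w hw d (v t) s hs.le hds
  have hmx : ∀ t ∈ A, ∀ k ∈ E w d (v t), 1 ≤ mx n m f k := by
    intro t ht k hk
    obtain ⟨ht1, ht2⟩ := (hmem t).mp ht
    obtain ⟨r, s, hr, hs, he, hds⟩ := hstep t ht1 ht2
    have hsk := s_lt w hw d (v t) s k hds hk
    have hkv := ((mem_E w d (v t) k).mp hk).1.2
    refine one_le_mx n m t r k f ht1 hr ?_
    rw [he]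
    simp only [pth]
    rw [if_pos ⟨hsk, hkv⟩, if_neg (by omega)]
    ring
  have hEN : ∀ t ∈ A, E w d (v t) ⊆ Icc 1 N := by
    intro t ht k hk
    have hkv := ((mem_E w d (v t) k).mp hk).1
    have := hB.run.v_le t ((hmem t).mp ht).1
    rw [mem_Icc]
    omega
  -- crowding
  have hcrd : ∀ k, (A.filter (fun t => k ∈ E w d (v t))).card ≤ 10 * b := by
    intro k
    rcases (A.filter (fun t => k ∈ E w d (v t))).eq_empty_or_nonempty with hem | hne
    · rw [hem]
      simp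
    · obtain ⟨t1, ht1, hmax⟩ := exists_max_image _ v hne
      rw [mem_filter] at ht1
      have hk1 := (mem_E w d (v t1) k).mp ht1.2
      have hvN := hB.run.v_le t1 ((hmem t1).mp ht1.1).1
      have hc := h2 N n m w c v x f S b O d k (v t1) hB hd hk1.1.2 hvN hk1.2
      refine (card_le_card ?_).trans hc
      intro t ht
      have hm := hmax t ht
      rw [mem_filter] at ht ⊢
      have ht2 := (hmem t).mp ht.1
      have hk2 := (mem_E w d (v t) k).mp ht.2
      exact ⟨mem_range.mpr ht2.1, ht2.2, hk2.1.2, hm⟩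
  -- double counting
  have hdc : ∑ t ∈ A, ∑ k ∈ E w d (v t), w k =
      ∑ k ∈ Icc 1 N, w k * ((A.filter (fun t => k ∈ E w d (v t))).card : ℝ) := by
    have e1 : ∀ t ∈ A, ∑ k ∈ E w d (v t), w k =
        ∑ k ∈ Icc 1 N, if k ∈ E w d (v t) then w k else 0 := by
      intro t ht
      rw [← sum_filter]
      refine sum_congr ?_ (fun _ _ => rfl)
      ext k
      rw [mem_filter]
      exact ⟨fun hk => ⟨hEN t ht hk, hk⟩, fun hk => hk.2⟩
    rw [sum_congr rfl e1, sum_comm]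
    refine sum_congr rfl (fun k _ => ?_)
    rw [← sum_filter, sum_const, nsmul_eq_mul]
    ring
  have hup : ∀ k ∈ Icc 1 N, w k * ((A.filter (fun t => k ∈ E w d (v t))).card : ℝ) ≤
      10 * b * (w k * (mx n m f k : ℝ)) := by
    intro k _
    rcases (A.filter (fun t => k ∈ E w d (v t))).eq_empty_or_nonempty with hem | hne
    · rw [hem]
      have := hw k
      simp only [card_empty, Nat.cast_zero, mul_zero]
      positivity
    · obtain ⟨t, ht⟩ := hne
      rw [mem_filter] at ht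
      have hm := hmx t ht.1 k ht.2
      have hm' : (1 : ℝ) ≤ (mx n m f k : ℝ) := by exact_mod_cast hm
      have hc : ((A.filter (fun t => k ∈ E w d (v t))).card : ℝ) ≤ 10 * b := by
        exact_mod_cast hcrd k
      have hb : (0 : ℝ) ≤ b := Nat.cast_nonneg b
      calc w k * ((A.filter (fun t => k ∈ E w d (v t))).card : ℝ)
          ≤ w k * (10 * b) := mul_le_mul_of_nonneg_left hc (hw k)
        _ = 10 * b * (w k * 1) := by ring
        _ ≤ 10 * b * (w k * (mx n m f k : ℝ)) := by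
            have := mul_le_mul_of_nonneg_left hm' (hw k)
            exact mul_le_mul_of_nonneg_left this (by positivity)
  have hfst := h3 N n m w c v x f S hB.run hB.feas
  have hO := hB.opt_le
  have hb : (0 : ℝ) ≤ b := Nat.cast_nonneg b
  calc (((range n).filter (fun t => Act N m w f d t)).card : ℝ) * d
      = ∑ t ∈ A, d := by
        rw [sum_const, nsmul_eq_mul]
    _ ≤ ∑ t ∈ A, ∑ k ∈ E w d (v t), w k := sum_le_sum hlow
    _ = ∑ k ∈ Icc 1 N, w k * ((A.filter (fun t => k ∈ E w d (v t))).card : ℝ) := hdc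
    _ ≤ ∑ k ∈ Icc 1 N, 10 * b * (w k * (mx n m f k : ℝ)) := sum_le_sum hup
    _ = 10 * b * ∑ k ∈ Icc 1 N, w k * (mx n m f k : ℝ) := by rw [mul_sum]
    _ ≤ 10 * b * (13 * O) := by
        refine mul_le_mul_of_nonneg_left ?_ (by positivity)
        linarith
    _ = 130 * b * O := by ring

end Pool.Agent.MP_a4c1f4_lc.BL
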