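import Pool.Agent.Lib.MP_a4c1f4_lc.BL.Spec

set_option autoImplicit false
set_option linter.all false

/-! Crowding of the active requests. -/

namespace Pool.Agent.MP_a4c1f4_lc.BL

open Finset
open Pool.Agent.MP_a4c1f4_lc.LM (Fz ps sm Opt dec pth zt Run mx cl)

namespace CrdAux

/-- Telescoping over a closed interval. -/
lemma tel (g : ℕ → ℤ) (a b : ℕ) (hab : a ≤ b + 1) :
    ∑ k ∈ Icc a b, (g (k + 1) - g k) = g (b + 1) - g a := by
  have h : Icc a b = Ico a (b + 1) := by
    ext k
    simp only [mem_Icc, mem_Ico]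
    omega
  rw [h]
  exact Finset.sum_Ico_sub g hab

/-- Splitting of a closed interval at `v`. -/
lemma split (g : ℕ → ℤ) (l v h : ℕ) (h1 : l ≤ v) (h2 : v ≤ h) :
    ∑ k ∈ Icc l h, g k = ∑ k ∈ Icc l v, g k + ∑ k ∈ Icc (v + 1) h, g k := by
  have hu : Icc l h = Icc l v ∪ Icc (v + 1) h := by
    ext k
    simp only [mem_union, mem_Icc]
    omega
  have hd : Disjoint (Icc l v) (Icc (v + 1) h) := by
    rw [Finset.disjoint_left]
    intro k
    simp only [mem_Icc]
    omega
  rw [hu, Finset.sum_union hd]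

/-- The sum of the bounds over the nodes of an interval. -/
lemma szt (c : ℕ → ℤ) (v : ℕ → ℕ) (t l h : ℕ) :
    ∑ k ∈ Icc l h, zt c v t k =
      ∑ k ∈ Icc l h, c k - (((range t).filter (fun a => l ≤ v a ∧ v a ≤ h)).card : ℤ) := by
  have key : ((range t).filter (fun a => l ≤ v a ∧ v a ≤ h)).card =
      ∑ k ∈ Icc l h, ((range t).filter (fun a => v a = k)).card := by
    rw [Finset.card_eq_sum_card_fiberwise (f := v) (t := Icc l h)]
    · apply Finset.sum_congr rfl
      intro k hk
      rw [mem_Icc] at hk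
      congr 1
      ext a
      simp only [mem_filter, mem_range]
      constructor
      · rintro ⟨⟨ha, _⟩, hb⟩
        exact ⟨ha, hb⟩
      · rintro ⟨ha, hb⟩
        exact ⟨⟨ha, by omega⟩, hb⟩
    · intro a ha
      simp only [coe_filter, Set.mem_setOf_eq] at ha
      simp only [coe_Icc, Set.mem_Icc]
      exact ha.2
  unfold zt
  rw [Finset.sum_sub_distrib, key]
  push_cast
  rfl

end CrdAux

open CrdAux in
theorem crdP (h1 : B_Sg) (h2 : B_Nl) (h3 : B_Nr) (h4 : B_Val)
    (h5 : Pool.Agent.MP_a4c1f4_lc.LM.S_Zt) : B_Crd := by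
  classical
  intro N n m w c v x f S b O d l h hR hd hlh hhN hw
  have hrun := hR.run
  obtain ⟨hm, _, hbd, _, _, _, _⟩ := h4 N n m w c v x f S b O hR
  by_cases hne : ((range n).filter (fun t => Act N m w f d t ∧ l ≤ v t ∧ v t ≤ h)).Nonempty
  swap
  · rw [Finset.not_nonempty_iff_eq_empty] at hne
    have : (((range n).filter (fun t => Act N m w f d t ∧ l ≤ v t ∧ v t ≤ h))).card = 0 := by
      rw [hne]
      rfl
    refine le_trans (le_of_eq ?_) (Nat.zero_le _)
    convert this
  set A : Finset ℕ := (range n).filter (fun t => Act N m w f d t ∧ l ≤ v t ∧ v t ≤ h) with hA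
  have hmem := A.min'_mem hne
  have hmin : ∀ t ∈ A, A.min' hne ≤ t := fun t ht => A.min'_le t ht
  set t1 := A.min' hne with ht1
  rw [hA, mem_filter, mem_range] at hmem
  obtain ⟨ht1n, ⟨⟨r, hr, hdr⟩, r', hr', hdr'⟩, hlv, hvh⟩ := hmem
  have hvN : v t1 ≤ N := hrun.v_le t1 ht1n
  -- the left piece
  have hL : ∀ k, l ≤ k → k ≤ v t1 → f t1 r (k + 1) - f t1 r k = zt c v t1 k := by
    obtain ⟨s, hsN, hs⟩ := hrun.step t1 r ht1n hr
    obtain ⟨_, g1, g2⟩ := h1 N w (v t1) s (f t1 r) hrun.w_nonneg hvN hsN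
    have hsl : sl N w f t1 r = sg N w (f t1 r) (pth (v t1) s (f t1 r)) := by
      unfold sl
      rw [hs]
    have hsv : s < v t1 := by
      by_contra hcon
      have hle : v t1 ≤ s := by omega
      have e := g2 hle
      have hnn : 0 ≤ ∑ k ∈ Ioc (v t1) s, w k := Finset.sum_nonneg (fun k _ => hrun.w_nonneg k)
      rw [hsl, e] at hdr
      linarith
    have e1 := g1 hsv.le
    have hslt : s < l := by
      by_contra hcon
      have hle : l ≤ s := by omega
      have hsub : Ioc s (v t1) ⊆ Ioc l h := by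
        intro k
        simp only [mem_Ioc]
        omega
      have := Finset.sum_le_sum_of_subset_of_nonneg hsub (fun k _ _ => hrun.w_nonneg k)
      rw [hsl, e1] at hdr
      linarith
    intro k hk1 hk2
    refine h2 N w (zt c v t1) (v t1) s (f t1 r) (x r) (x (r + 1)) hrun.w_nonneg hR.w_pos
      (hR.x_lt r hr) hvN hsv ?_ ?_ k (by omega) hk2
    · intro θ a1 a2
      exact hrun.opt t1 r ht1n.le hr θ a1 a2
    · intro θ a1 a2
      have := hrun.opt (t1 + 1) r (by omega) hr θ a1 a2
      rw [h5.1, hs] at this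
      exact this
  -- the right piece
  have hRt : ∀ k, v t1 ≤ k → k ≤ h → f t1 r' (k + 1) - f t1 r' k = zt c v t1 k := by
    obtain ⟨s, hsN, hs⟩ := hrun.step t1 r' ht1n hr'
    obtain ⟨_, g1, g2⟩ := h1 N w (v t1) s (f t1 r') hrun.w_nonneg hvN hsN
    have hsl : sl N w f t1 r' = sg N w (f t1 r') (pth (v t1) s (f t1 r')) := by
      unfold sl
      rw [hs]
    have hsv : v t1 < s := by
      by_contra hcon
      have hle : s ≤ v t1 := by omega
      have e := g1 hle
      have hnn : 0 ≤ ∑ k ∈ Ioc s (v t1), w k := Finset.sum_nonneg (fun k _ => hrun.w_nonneg k)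
      rw [hsl, e] at hdr'
      linarith
    have e1 := g2 hsv.le
    have hslt : h < s := by
      by_contra hcon
      have hle : s ≤ h := by omega
      have hsub : Ioc (v t1) s ⊆ Ioc l h := by
        intro k
        simp only [mem_Ioc]
        omega
      have := Finset.sum_le_sum_of_subset_of_nonneg hsub (fun k _ _ => hrun.w_nonneg k)
      rw [hsl, e1] at hdr'
      linarith
    intro k hk1 hk2
    refine h3 N w (zt c v t1) (v t1) s (f t1 r') (x r') (x (r' + 1)) hrun.w_nonneg hR.w_pos
      (hR.x_lt r' hr') hsv hsN ?_ ?_ k hk1 (by omega)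
    · intro θ a1 a2
      exact hrun.opt t1 r' ht1n.le hr' θ a1 a2
    · intro θ a1 a2
      have := hrun.opt (t1 + 1) r' (by omega) hr' θ a1 a2
      rw [h5.1, hs] at this
      exact this
  -- the sum of the bounds at the time `t1`
  have hsum1 : ∑ k ∈ Icc l h, zt c v t1 k ≤ 8 * (b : ℤ) := by
    rw [split (zt c v t1) l (v t1) h hlv hvh]
    have e1 : ∑ k ∈ Icc l (v t1), zt c v t1 k = f t1 r (v t1 + 1) - f t1 r l := by
      rw [← tel (f t1 r) l (v t1) (by omega)]
      apply Finset.sum_congr rfl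
      intro k hk
      rw [mem_Icc] at hk
      exact (hL k hk.1 hk.2).symm
    have e2 : ∑ k ∈ Icc (v t1 + 1) h, zt c v t1 k = f t1 r' (h + 1) - f t1 r' (v t1 + 1) := by
      rw [← tel (f t1 r') (v t1 + 1) h (by omega)]
      apply Finset.sum_congr rfl
      intro k hk
      rw [mem_Icc] at hk
      exact (hRt k (by omega) hk.2).symm
    rw [e1, e2]
    have b1 := abs_le.mp (hbd t1 r (v t1 + 1) ht1n.le hr)
    have b2 := abs_le.mp (hbd t1 r l ht1n.le hr)
    have b3 := abs_le.mp (hbd t1 r' (h + 1) ht1n.le hr')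
    have b4 := abs_le.mp (hbd t1 r' (v t1 + 1) ht1n.le hr')
    omega
  have hsum2 : -(2 * (b : ℤ)) ≤ ∑ k ∈ Icc l h, zt c v n k := by
    have e1 : ∑ k ∈ Icc l h, (S (k + 1) - S k) ≤ ∑ k ∈ Icc l h, zt c v n k := by
      apply Finset.sum_le_sum
      intro k hk
      rw [mem_Icc] at hk
      exact hR.feas.2.2 k (by omega)
    rw [tel S l h (by omega)] at e1
    have b1 := abs_le.mp (hR.bd (h + 1))
    have b2 := abs_le.mp (hR.bd l)
    omega
  rw [szt] at hsum1 hsum2
  have hcard : ((range t1).filter (fun a => l ≤ v a ∧ v a ≤ h)).card + A.card ≤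
      ((range n).filter (fun a => l ≤ v a ∧ v a ≤ h)).card := by
    rw [← Finset.card_union_of_disjoint]
    · apply Finset.card_le_card
      intro a ha
      rw [mem_union] at ha
      rcases ha with ha | ha
      · rw [mem_filter, mem_range] at ha ⊢
        exact ⟨by omega, ha.2⟩
      · rw [hA, mem_filter] at ha
        rw [mem_filter]
        exact ⟨ha.1, ha.2.2⟩
    · rw [Finset.disjoint_left]
      intro a ha hb
      rw [mem_filter, mem_range] at ha
      have := hmin a hb
      omega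
  have hfin : A.card ≤ 10 * b := by omega
  exact hfin

end Pool.Agent.MP_a4c1f4_lc.BL
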