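import Pool.Agent.Lib.MP_a4c1f4_lc.BL.Spec

/-!
# MP_a4c1f4_lc, project BL: ordered intervals and dyadic scales
-/

set_option autoImplicit false

namespace Pool.Agent.MP_a4c1f4_lc.BL

open Finset

namespace DyAux

open Classical in
theorem ord (P : ℕ → Prop) (lo hi : ℕ → ℝ) (y : ℝ) (hy : 0 ≤ y) (m : ℕ) :
    (∀ r, r < m → P r → 0 ≤ lo r ∧ lo r ≤ hi r) →
    (∀ r r', r < r' → r' < m → P r → P r' → hi r ≤ lo r') →
    ∀ B : ℝ, 0 ≤ B → (∀ r, r < m → P r → hi r ≤ B) →
    ∑ r ∈ range m, (if P r then min (hi r) y - min (lo r) y else 0) ≤ min B y := by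
  induction m with
  | zero =>
    intro _ _ B hB _
    rw [Finset.sum_range_zero]
    exact le_min hB hy
  | succ m ih =>
    intro h1 h2 B hB h3
    have ih' := ih (fun r hr => h1 r (by omega)) (fun r r' hr hr' => h2 r r' hr (by omega))
    rw [Finset.sum_range_succ]
    by_cases hP : P m
    · rw [if_pos hP]
      have h4 := ih' (lo m) (h1 m (by omega) hP).1 (fun r hr hPr => h2 r m hr (by omega) hPr hP)
      have h5 : min (hi m) y ≤ min B y := min_le_min_right y (h3 m (by omega) hP)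
      linarith
    · rw [if_neg hP, add_zero]
      exact ih' B hB (fun r hr => h3 r (by omega))

/-- the increment of `min u y` -/
theorem be_nonneg {a b : ℝ} (y : ℝ) (h : a ≤ b) : 0 ≤ min b y - min a y :=
  sub_nonneg.2 (min_le_min_right y h)

theorem be_mono {a b y z : ℝ} (h : a ≤ b) (hyz : y ≤ z) :
    min b y - min a y ≤ min b z - min a z := by
  rcases le_total b y with h1 | h1
  · rw [min_eq_left h1, min_eq_left (h.trans h1), min_eq_left (h1.trans hyz),
      min_eq_left ((h.trans h1).trans hyz)]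
  · rw [min_eq_right h1]
    rcases le_total a y with h2 | h2
    · rw [min_eq_left h2, min_eq_left (h2.trans hyz)]
      have := le_min h1 hyz
      linarith
    · rw [min_eq_right h2, sub_self]
      exact be_nonneg z h

open Classical in
/-- one piece: dyadic decomposition of the scale -/
theorem term {a b : ℝ} (h : a ≤ b) {L d p : ℝ} (hL : 0 < L) (K : ℕ) (hK : d < 2 ^ K * p) :
    min b (d / L) - min a (d / L) ≤ (min b (p / L) - min a (p / L)) +
      ∑ k ∈ range K, (if 2 ^ k * p ≤ d then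
        min b (2 ^ (k + 1) * p / L) - min a (2 ^ (k + 1) * p / L) else 0) := by
  have hnn : ∀ k, 0 ≤ (if 2 ^ k * p ≤ d then
        min b (2 ^ (k + 1) * p / L) - min a (2 ^ (k + 1) * p / L) else 0) := by
    intro k
    split_ifs
    · exact be_nonneg _ h
    · exact le_rfl
  induction K with
  | zero =>
    rw [Finset.sum_range_zero, add_zero]
    refine be_mono h ?_
    rw [pow_zero, one_mul] at hK
    exact div_le_div_of_nonneg_right hK.le hL.le
  | succ K ih =>
    rw [Finset.sum_range_succ]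
    by_cases h1 : 2 ^ K * p ≤ d
    · rw [if_pos h1]
      have h2 : min b (d / L) - min a (d / L) ≤
          min b (2 ^ (K + 1) * p / L) - min a (2 ^ (K + 1) * p / L) :=
        be_mono h (div_le_div_of_nonneg_right hK.le hL.le)
      have h3 : 0 ≤ min b (p / L) - min a (p / L) := be_nonneg _ h
      have h4 : 0 ≤ ∑ k ∈ range K, (if 2 ^ k * p ≤ d then
        min b (2 ^ (k + 1) * p / L) - min a (2 ^ (k + 1) * p / L) else 0) :=
        Finset.sum_nonneg fun k _ => hnn k
      linarith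
    · rw [if_neg h1, add_zero]
      exact ih (not_le.1 h1)

open Classical in
/-- all pieces at one scale -/
theorem scale (hO : B_Ord) (m b : ℕ) (u σ : ℕ → ℝ) (j : ℕ → ℤ)
    (hu : ∀ r, r ≤ m → 0 ≤ u r)
    (h1 : ∀ r, r < m → 0 < σ r → u r ≤ u (r + 1) ∧ -(2 * (b : ℤ)) ≤ j r ∧ j r < 2 * (b : ℤ))
    (h2 : ∀ r r', r < r' → r' < m → 0 < σ r → 0 < σ r' → j r = j r' → u (r + 1) ≤ u r')
    (y : ℝ) (hy : 0 ≤ y) :
    ∑ r ∈ range m, (if 0 < σ r then min (u (r + 1)) y - min (u r) y else 0) ≤ 4 * b * y := by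
  have h3 : ∀ r ∈ range m, (if 0 < σ r then min (u (r + 1)) y - min (u r) y else 0) =
      ∑ i ∈ Finset.Ico (-(2 * (b : ℤ))) (2 * (b : ℤ)),
        (if 0 < σ r ∧ j r = i then min (u (r + 1)) y - min (u r) y else 0) := by
    intro r hr
    have hr' := Finset.mem_range.1 hr
    by_cases hσ : 0 < σ r
    · rw [if_pos hσ]
      have h4 := h1 r hr' hσ
      rw [Finset.sum_eq_single_of_mem (j r) (Finset.mem_Ico.2 ⟨h4.2.1, h4.2.2⟩)]
      · rw [if_pos ⟨hσ, rfl⟩]
      · intro i _ hi
        rw [if_neg]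
        rintro ⟨-, h5⟩
        exact hi h5.symm
    · rw [if_neg hσ]
      symm
      refine Finset.sum_eq_zero fun i _ => ?_
      rw [if_neg]
      rintro ⟨h5, -⟩
      exact hσ h5
  rw [Finset.sum_congr rfl h3, Finset.sum_comm]
  have h6 : ∀ i ∈ Finset.Ico (-(2 * (b : ℤ))) (2 * (b : ℤ)),
      ∑ r ∈ range m, (if 0 < σ r ∧ j r = i then min (u (r + 1)) y - min (u r) y else 0) ≤ y := by
    intro i _
    refine le_trans (le_of_eq (Finset.sum_congr rfl fun r _ => ?_))
      (hO m (fun r => 0 < σ r ∧ j r = i) u (fun r => u (r + 1)) y hy ?_ ?_)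
    · split_ifs <;> rfl
    · rintro r hr ⟨h7, -⟩
      exact ⟨hu r hr.le, (h1 r hr h7).1⟩
    · rintro r r' hr hr' ⟨h7, h8⟩ ⟨h9, h10⟩
      exact h2 r r' hr hr' h7 h9 (h8.trans h10.symm)
  refine (Finset.sum_le_sum h6).trans ?_
  rw [Finset.sum_const, Int.card_Ico, nsmul_eq_mul]
  have h11 : (2 * (b : ℤ) - -(2 * (b : ℤ))).toNat = 4 * b := by omega
  rw [h11]
  push_cast
  exact le_rfl

end DyAux

open DyAux

open Classical in
theorem ordP : B_Ord := by
  intro m P lo hi y hy h1 h2
  refine (ord P lo hi y hy m h1 h2 (∑ r ∈ range m, |hi r|)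
    (Finset.sum_nonneg fun r _ => abs_nonneg _) ?_).trans (min_le_right _ _)
  intro r hr _
  exact (le_abs_self _).trans
    (Finset.single_le_sum (f := fun r => |hi r|) (fun _ _ => abs_nonneg _) (Finset.mem_range.2 hr))

open Classical in
theorem dyP (h : B_Ord) : B_Dy := by
  intro m K b u σ j L D p hL hD hp hu h1 h2
  have h1' : ∀ r, r < m → 0 < σ r →
      u r ≤ u (r + 1) ∧ -(2 * (b : ℤ)) ≤ j r ∧ j r < 2 * (b : ℤ) := fun r hr hσ =>
    ⟨(h1 r hr hσ).1, (h1 r hr hσ).2.1, (h1 r hr hσ).2.2.1⟩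
  have hsc := scale h m b u σ j hu h1' h2
  -- the decomposition of every term
  have h3 : ∀ r ∈ range m, (if 0 < σ r then min (u (r + 1)) (min (σ r) D / L) -
      min (u r) (min (σ r) D / L) else 0) ≤
      (if 0 < σ r then min (u (r + 1)) (p / L) - min (u r) (p / L) else 0) +
      ∑ k ∈ range K, (if 0 < σ r then (if 2 ^ k * p ≤ min (σ r) D then
        min (u (r + 1)) (2 ^ (k + 1) * p / L) - min (u r) (2 ^ (k + 1) * p / L) else 0) else 0) := by
    intro r hr
    have hr' := Finset.mem_range.1 hr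
    by_cases hσ : 0 < σ r
    · simp only [if_pos hσ]
      exact term (h1 r hr' hσ).1 hL K (lt_of_le_of_lt (min_le_left _ _) (h1 r hr' hσ).2.2.2)
    · simp only [if_neg hσ]
      simp
  refine (Finset.sum_le_sum h3).trans ?_
  rw [Finset.sum_add_distrib, Finset.sum_comm]
  -- the scales
  have h4 : ∑ r ∈ range m, (if 0 < σ r then min (u (r + 1)) (p / L) - min (u r) (p / L) else 0) ≤
      4 * b * (p / L) := hsc (p / L) (div_nonneg hp.le hL.le)
  have h5 : ∀ k ∈ range K, ∑ r ∈ range m, (if 0 < σ r then (if 2 ^ k * p ≤ min (σ r) D then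
        min (u (r + 1)) (2 ^ (k + 1) * p / L) - min (u r) (2 ^ (k + 1) * p / L) else 0) else 0) ≤
      4 * b / L * (if ∃ r, r < m ∧ 2 ^ k * p ≤ σ r ∧ 2 ^ k * p ≤ D then 2 ^ (k + 1) * p else 0) := by
    intro k _
    by_cases hex : ∃ r, r < m ∧ 2 ^ k * p ≤ σ r ∧ 2 ^ k * p ≤ D
    · rw [if_pos hex]
      have h6 : ∀ r ∈ range m, (if 0 < σ r then (if 2 ^ k * p ≤ min (σ r) D then
          min (u (r + 1)) (2 ^ (k + 1) * p / L) - min (u r) (2 ^ (k + 1) * p / L) else 0) else 0) ≤
          (if 0 < σ r then min (u (r + 1)) (2 ^ (k + 1) * p / L) -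
            min (u r) (2 ^ (k + 1) * p / L) else 0) := by
        intro r hr
        have hr' := Finset.mem_range.1 hr
        by_cases hσ : 0 < σ r
        · simp only [if_pos hσ]
          split_ifs
          · exact le_rfl
          · exact be_nonneg _ (h1 r hr' hσ).1
        · simp only [if_neg hσ]
          exact le_rfl
      refine (Finset.sum_le_sum h6).trans ((hsc (2 ^ (k + 1) * p / L) (by positivity)).trans
        (le_of_eq ?_))
      ring
    · rw [if_neg hex, mul_zero]
      refine le_of_eq (Finset.sum_eq_zero fun r hr => ?_)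
      have hr' := Finset.mem_range.1 hr
      split_ifs with h7 h8
      · exact absurd ⟨r, hr', h8.trans (min_le_left _ _), h8.trans (min_le_right _ _)⟩ hex
      · rfl
      · rfl
  refine (add_le_add h4 (Finset.sum_le_sum h5)).trans (le_of_eq ?_)
  rw [← Finset.mul_sum]
  ring

end Pool.Agent.MP_a4c1f4_lc.BL
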