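import Pool.Agent.Lib.MP_a4c1f4_lc.BL.Spec

set_option autoImplicit false

/-!
The nearest free node: on a piece of tilts of positive length the request is served from the nearest
free node on the left (on the right).
-/

namespace Pool.Agent.MP_a4c1f4_lc.BL

open Finset
open Pool.Agent.MP_a4c1f4_lc.LM (Fz ps sm Opt dec pth zt Run mx cl)

namespace NstAux

theorem aff (N : ℕ) (w : ℕ → ℝ) (θ θ' : ℝ) (f g : ℕ → ℤ) :
    (sm w θ' 1 (N + 1) g - sm w θ' 1 (N + 1) f) - (sm w θ 1 (N + 1) g - sm w θ 1 (N + 1) f) =
      (θ' - θ) * ∑ k ∈ Ico 1 (N + 1), w k * ((g k : ℝ) - (f k : ℝ)) := by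
  unfold sm
  rw [← Finset.sum_sub_distrib, ← Finset.sum_sub_distrib, ← Finset.sum_sub_distrib, Finset.mul_sum]
  apply Finset.sum_congr rfl
  intro k _
  unfold ps
  ring

/-- exchange: the flows `f1, g1` are obtained from `f, P` by exchanging the values on some edges -/
theorem core (N : ℕ) (w : ℕ → ℝ) (z z' : ℕ → ℤ) (f P f1 g1 : ℕ → ℤ) (a a' : ℝ) (ha : a < a')
    (h1 : ∀ θ, a ≤ θ → θ ≤ a' → Opt N w z θ f) (h2 : ∀ θ, a ≤ θ → θ ≤ a' → Opt N w z' θ P)
    (hf : Fz N z f1) (hg : Fz N z' g1)
    (hx : ∀ j, (f1 j = f j ∧ g1 j = P j) ∨ (f1 j = P j ∧ g1 j = f j)) :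
    ∑ k ∈ Ico 1 (N + 1), w k * ((f1 k : ℝ) - (f k : ℝ)) = 0 := by
  have hs : ∀ θ, sm w θ 1 (N + 1) f1 + sm w θ 1 (N + 1) g1 =
      sm w θ 1 (N + 1) f + sm w θ 1 (N + 1) P := by
    intro θ
    unfold sm
    rw [← Finset.sum_add_distrib, ← Finset.sum_add_distrib]
    apply Finset.sum_congr rfl
    intro j _
    rcases hx j with ⟨e1, e2⟩ | ⟨e1, e2⟩
    · rw [e1, e2]
    · rw [e1, e2]; ring
  have h0 : ∀ θ, a ≤ θ → θ ≤ a' → sm w θ 1 (N + 1) f1 - sm w θ 1 (N + 1) f = 0 := by
    intro θ t1 t2
    have i1 := (h1 θ t1 t2).2 f1 hf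
    have i2 := (h2 θ t1 t2).2 g1 hg
    have i3 := hs θ
    linarith
  have e := aff N w a a' f f1
  rw [h0 a le_rfl ha.le, h0 a' ha.le le_rfl, sub_self] at e
  rcases mul_eq_zero.1 e.symm with h | h
  · linarith
  · exact h

end NstAux

theorem nlP : B_Nl := by
  intro N w z v s f a a' hw hwp ha hv hsv h1 h2 k hsk hkv
  have hF := (h1 a le_rfl ha.le).1
  have hP := (h2 a le_rfl ha.le).1
  by_contra hne
  have hslack : f (k + 1) - f k + 1 ≤ z k := by
    have := hF.2.2 k (by omega)
    omega
  have hfree : f (s + 1) - f s + 1 ≤ z s := by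
    have := hP.2.2 s (by omega)
    simp only [dec, pth] at this
    split_ifs at this <;> omega
  have hf1 : Fz N z (fun j => f j + if s < j ∧ j ≤ k then 1 else 0) := by
    refine ⟨?_, ?_, ?_⟩
    · have := hF.1
      simp only
      split_ifs <;> omega
    · intro j hj
      have := hF.2.1 j hj
      simp only
      split_ifs <;> omega
    · intro j hj
      have h3 := hF.2.2 j hj
      by_cases hjs : j = s
      · subst hjs
        simp only
        split_ifs <;> omega
      · simp only
        split_ifs <;> omega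
  have hg1 : Fz N (dec z v) (fun j => f j + if k < j ∧ j ≤ v then 1 else 0) := by
    refine ⟨?_, ?_, ?_⟩
    · have := hF.1
      simp only
      split_ifs <;> omega
    · intro j hj
      have := hF.2.1 j hj
      simp only
      split_ifs <;> omega
    · intro j hj
      have h3 := hF.2.2 j hj
      simp only [dec]
      by_cases hjk : j = k
      · subst hjk
        split_ifs <;> omega
      · split_ifs <;> omega
  have h0 := NstAux.core N w z (dec z v) f (pth v s f) _ _ a a' ha h1 h2 hf1 hg1 (by
    intro j
    simp only [pth]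
    by_cases hj : s < j ∧ j ≤ k
    · right
      constructor
      · split_ifs <;> omega
      · split_ifs <;> omega
    · left
      constructor
      · split_ifs; omega
      · split_ifs <;> omega)
  have hpos : 0 < ∑ j ∈ Ico 1 (N + 1), w j * ((((fun j => f j + if s < j ∧ j ≤ k then 1 else 0) : ℕ → ℤ) j : ℝ) - (f j : ℝ)) := by
    apply Finset.sum_pos'
    · intro j _
      apply mul_nonneg (hw j)
      simp only
      split_ifs <;> push_cast <;> linarith
    · refine ⟨k, ?_, ?_⟩
      · rw [Finset.mem_Ico]; omega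
      · apply mul_pos (hwp k (by omega) (by omega))
        simp only
        rw [if_pos ⟨hsk, le_rfl⟩]
        push_cast
        linarith
  linarith

theorem nrP : B_Nr := by
  intro N w z v s f a a' hw hwp ha hvs hs h1 h2 k hvk hks
  have hF := (h1 a le_rfl ha.le).1
  have hP := (h2 a le_rfl ha.le).1
  by_contra hne
  have hslack : f (k + 1) - f k + 1 ≤ z k := by
    have := hF.2.2 k (by omega)
    omega
  have hfree : f (s + 1) - f s + 1 ≤ z s := by
    have := hP.2.2 s (by omega)
    simp only [dec, pth] at this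
    split_ifs at this <;> omega
  have hf1 : Fz N z (fun j => f j - if k < j ∧ j ≤ s then 1 else 0) := by
    refine ⟨?_, ?_, ?_⟩
    · have := hF.1
      simp only
      split_ifs <;> omega
    · intro j hj
      have := hF.2.1 j hj
      simp only
      split_ifs <;> omega
    · intro j hj
      have h3 := hF.2.2 j hj
      by_cases hjs : j = s
      · subst hjs
        simp only
        split_ifs <;> omega
      · simp only
        split_ifs <;> omega
  have hg1 : Fz N (dec z v) (fun j => f j - if v < j ∧ j ≤ k then 1 else 0) := by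
    refine ⟨?_, ?_, ?_⟩
    · have := hF.1
      simp only
      split_ifs <;> omega
    · intro j hj
      have := hF.2.1 j hj
      simp only
      split_ifs <;> omega
    · intro j hj
      have h3 := hF.2.2 j hj
      simp only [dec]
      by_cases hjk : j = k
      · subst hjk
        split_ifs <;> omega
      · split_ifs <;> omega
  have h0 := NstAux.core N w z (dec z v) f (pth v s f) _ _ a a' ha h1 h2 hf1 hg1 (by
    intro j
    simp only [pth]
    by_cases hj : k < j ∧ j ≤ s
    · right
      constructor
      · split_ifs <;> omega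
      · split_ifs <;> omega
    · left
      constructor
      · split_ifs; omega
      · split_ifs <;> omega)
  have hpos : ∑ j ∈ Ico 1 (N + 1), w j * ((((fun j => f j - if k < j ∧ j ≤ s then 1 else 0) : ℕ → ℤ) j : ℝ) - (f j : ℝ)) < 0 := by
    apply Finset.sum_neg'
    · intro j _
      apply mul_nonpos_of_nonneg_of_nonpos (hw j)
      simp only
      split_ifs <;> push_cast <;> linarith
    · refine ⟨s, ?_, ?_⟩
      · rw [Finset.mem_Ico]; omega
      · apply mul_neg_of_pos_of_neg (hwp s (by omega) (by omega))
        simp only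
        rw [if_pos ⟨hks, le_rfl⟩]
        push_cast
        linarith
  linarith

end Pool.Agent.MP_a4c1f4_lc.BL
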