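import Pool.Agent.Lib.MP_a4c1f4_lc.BL.Spec

set_option autoImplicit false

/-! The numbers at the end of the analysis for the bounded load. -/

namespace Pool.Agent.MP_a4c1f4_lc.BL

open Finset

theorem numP : B_Num := by
  intro n b hn hb
  have hnR : (3 : ℝ) ≤ (n : ℝ) := by exact_mod_cast hn
  have hn0 : (0 : ℝ) < (n : ℝ) := by linarith
  have hl3 : Real.log 3 ≤ Real.log n := Real.log_le_log (by norm_num) hnR
  have h13 : 1 < Real.log 3 := by
    rw [Real.lt_log_iff_exp_lt (by norm_num)]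
    have := Real.exp_one_lt_d9
    linarith
  have hy : 1 < Real.log n := lt_of_lt_of_le h13 hl3
  have hy0 : 0 < Real.log n := by linarith
  set y : ℝ := Real.log n with hyd
  set s : ℝ := Real.sqrt y with hs
  have hs1 : 1 ≤ s := by
    rw [hs]
    exact Real.one_le_sqrt.2 hy.le
  have hss : s * s = y := Real.mul_self_sqrt hy0.le
  have hbR : (1 : ℝ) ≤ (b : ℝ) := by exact_mod_cast hb
  have hK2 : 4 * n < 2 ^ (Nat.log 2 (4 * n) + 1) :=
    Nat.lt_pow_succ_log_self (by norm_num) _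
  have hKle : ((Nat.log 2 (4 * n) : ℕ) : ℝ) * Real.log 2 ≤ Real.log 4 + y := by
    have h1 : 2 ^ (Nat.log 2 (4 * n)) ≤ 4 * n := Nat.pow_log_le_self 2 (by omega)
    have h2 : ((2 : ℝ) ^ (Nat.log 2 (4 * n))) ≤ 4 * (n : ℝ) := by exact_mod_cast h1
    have h3 := Real.log_le_log (by positivity) h2
    rw [Real.log_pow, Real.log_mul (by norm_num) (by positivity)] at h3
    exact h3
  have hl4 : Real.log 4 = 2 * Real.log 2 := by
    rw [show (4 : ℝ) = 2 ^ 2 by norm_num, Real.log_pow]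
    norm_num
  have hl2 := Real.log_two_gt_d9
  have hK5 : ((Nat.log 2 (4 * n) + 1 : ℕ) : ℝ) ≤ 5 * y := by
    have h4 : ((Nat.log 2 (4 * n) : ℕ) : ℝ) - 2 ≤ 3 / 2 * y := by
      have h5 : (((Nat.log 2 (4 * n) : ℕ) : ℝ) - 2) * Real.log 2 ≤ y := by
        rw [hl4] at hKle
        linarith
      have h6 : y ≤ (3 / 2 * y) * Real.log 2 := by nlinarith
      have h7 : (((Nat.log 2 (4 * n) : ℕ) : ℝ) - 2) * Real.log 2 ≤ (3 / 2 * y) * Real.log 2 :=
        le_trans h5 h6
      exact le_of_mul_le_mul_right h7 (by linarith)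
    push_cast
    linarith
  refine ⟨Nat.log 2 (4 * n) + 1, 75 * b * s, by positivity, by exact_mod_cast hK2, ?_⟩
  set K : ℝ := ((Nat.log 2 (4 * n) + 1 : ℕ) : ℝ) with hK
  have hK1 : 1 ≤ K := by
    rw [hK]
    exact_mod_cast Nat.le_add_left 1 _
  have hbK : 1 ≤ (b : ℝ) * K := by nlinarith
  have hA : 1 + 260 * b * K ≤ 1305 * (b * y) := by
    have h1 : (b : ℝ) * K ≤ b * (5 * y) := mul_le_mul_of_nonneg_left hK5 (by linarith)
    nlinarith
  have hT : 4 * b / (75 * b * s) * (1 + 260 * b * K) ≤ 4 / 75 * (1305 * (b * s)) := by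
    have h1 : 4 * (b : ℝ) / (75 * b * s) = 4 / (75 * s) := by
      field_simp
    rw [h1, div_mul_eq_mul_div, div_le_iff₀ (by positivity)]
    have h2 : 4 / 75 * (1305 * (b * s)) * (75 * s) = 4 * (1305 * (b * (s * s))) := by ring
    rw [h2, hss]
    linarith
  have hbs : 1 ≤ (b : ℝ) * s := by nlinarith
  have h8 : 8 / 9 * (75 * b * s) = 200 / 3 * (b * s) := by ring
  rw [h8]
  linarith

end Pool.Agent.MP_a4c1f4_lc.BL
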