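import Pool.Agent.Lib.MP_a4c1f4_lc.BL.Spec

set_option autoImplicit false

/-!
Online matching on the line, bounded load, module Ol: order of the prices with the same label.
-/

namespace Pool.Agent.MP_a4c1f4_lc.BL

open Finset
open Pool.Agent.MP_a4c1f4_lc.LM (Fz ps sm Opt dec pth zt Run mx cl)

namespace OlAux

theorem pth_at (v s : ℕ) (f : ℕ → ℤ) (hs : s < v) : pth v s f v = f v + 1 := by
  simp only [pth]
  split_ifs <;> omega

theorem pth_gt (v s : ℕ) (f : ℕ → ℤ) (hs : s < v) (k : ℕ) (hk : v < k) : pth v s f k = f k := by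
  simp only [pth]
  split_ifs <;> omega

theorem sm_split (N : ℕ) (w : ℕ → ℝ) (θ : ℝ) (v : ℕ) (f : ℕ → ℤ) (hv1 : 1 ≤ v) (hv : v ≤ N) :
    sm w θ 1 (N + 1) f = sm w θ 1 v f + w v * ps θ (f v) + sm w θ (v + 1) (N + 1) f := by
  simp only [sm]
  rw [← sum_Ico_consecutive _ hv1 (show v ≤ N + 1 by omega),
    sum_eq_sum_Ico_succ_bot (show v < N + 1 by omega)]
  ring

theorem split (N : ℕ) (w : ℕ → ℝ) (θ : ℝ) (v s : ℕ) (f : ℕ → ℤ) (hs : s < v) (hv : v ≤ N) :
    sm w θ 1 (N + 1) (pth v s f) - sm w θ 1 (N + 1) f =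
      cl w v f (pth v s f) θ + w v * (ps θ (f v + 1) - ps θ (f v)) := by
  have hv1 : 1 ≤ v := by omega
  rw [sm_split N w θ v f hv1 hv, sm_split N w θ v (pth v s f) hv1 hv, pth_at v s f hs]
  have h : sm w θ (v + 1) (N + 1) (pth v s f) = sm w θ (v + 1) (N + 1) f := by
    simp only [sm]
    refine sum_congr rfl fun k hk => ?_
    rw [mem_Ico] at hk
    rw [pth_gt v s f hs k (by omega)]
  rw [h]
  simp only [cl]
  ring

end OlAux

theorem olP (h : Pool.Agent.MP_a4c1f4_lc.LM.S_OrA) : B_Ol := by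
  intro N w z v s s' f f' θ θ' hw hv hs hs' hθ hf hg hf' hg' hff
  rw [OlAux.split N w θ v s f hs hv, OlAux.split N w θ' v s' f' hs' hv]
  have h1 := h N w z z θ θ' v v v (f v) f (pth v s f) f' (pth v s' f') hw (fun _ => le_rfl) hθ le_rfl le_rfl hv
    hf.1 hg hf' hg'.1 rfl (OlAux.pth_at v s f hs) hff.symm (by rw [OlAux.pth_at v s' f' hs', hff])
  have h2 : w v * (ps θ (f v + 1) - ps θ (f v)) ≤ w v * (ps θ' (f' v + 1) - ps θ' (f' v)) := by
    apply mul_le_mul_of_nonneg_left _ (hw v)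
    rw [← hff]
    simp only [ps]
    push_cast
    linarith
  linarith

end Pool.Agent.MP_a4c1f4_lc.BL
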