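import Pool.Agent.Lib.MP_a4c1f4_lc.BL.Spec

set_option autoImplicit false

/-!
Project BL, statement `B_One`: one request.
-/

namespace Pool.Agent.MP_a4c1f4_lc.BL

open Finset
open Pool.Agent.MP_a4c1f4_lc.LM (Fz ps sm Opt dec pth zt Run mx cl)

open Classical in
theorem oneP (h1 : B_Calc) (h2 : B_Dy) (h3 : B_Val) (h4 : B_Lab) : B_One := by
  intro N n m w c v x f S b O L p K hR hL hp hK t ht
  obtain ⟨hm, hx, hf, hU0, hUs, hUO, hsl⟩ := h3 N n m w c v x f S b O hR
  obtain ⟨hj, hord⟩ := h4 N n m w c v x f S b O hR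
  obtain ⟨r0, hr0, hmax⟩ := Finset.exists_max_image (range m)
    (fun r => max (-sl N w f t r) 0) ⟨0, Finset.mem_range.mpr hm⟩
  have hr0m : r0 < m := Finset.mem_range.mp hr0
  have hD0 : 0 ≤ max (-sl N w f t r0) 0 := le_max_right _ _
  have hDs : ∀ r, r < m → -(max (-sl N w f t r0) 0) ≤ sl N w f t r := by
    intro r hr
    have h := hmax r (Finset.mem_range.mpr hr)
    have h' : -sl N w f t r ≤ max (-sl N w f t r0) 0 := le_trans (le_max_left _ _) h
    linarith
  have hDa : ∀ d : ℝ, 0 < d → d ≤ max (-sl N w f t r0) 0 → sl N w f t r0 ≤ -d := by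
    intro d hd hdD
    rcases le_total (-sl N w f t r0) 0 with h | h
    · rw [max_eq_right h] at hdD
      linarith
    · rw [max_eq_left h] at hdD
      linarith
  generalize max (-sl N w f t r0) 0 = D at hD0 hDs hDa
  have hl : ∀ r, r < m → 0 ≤ x (r + 1) - x r := fun r hr => (sub_pos.mpr (hR.x_lt r hr)).le
  have hC := h1 m (fun r => U N m w x f t r) (fun r => sl N w f t r) (fun r => x (r + 1) - x r) L D
    hL hD0 (fun r hr => hU0 t r ht hr) hl (fun r hr => hUs t r ht hr) hDs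
  have hY := h2 m K b (fun r => U N m w x f t r) (fun r => sl N w f t r) (fun r => f t r (v t)) L D p
    hL hD0 hp (fun r hr => hU0 t r ht hr)
    (fun r hr hs => ⟨by
        have h := hUs t r ht hr
        have h' : 0 ≤ sl N w f t r * (x (r + 1) - x r) := mul_nonneg hs.le (hl r hr)
        linarith, (hj t r ht hr hs).1, (hj t r ht hr hs).2, by
        have h := hsl t r ht hr
        have h' := le_abs_self (sl N w f t r)
        linarith⟩)
    (fun r r' hrr hr' hs hs' he => hord t r r' ht hrr hr' hs hs' he)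
  have hA : ∑ k ∈ range K, (if ∃ r, r < m ∧ 2 ^ k * p ≤ sl N w f t r ∧ 2 ^ k * p ≤ D then
        (2 : ℝ) ^ (k + 1) * p else 0) ≤
      ∑ k ∈ range K, (if Act N m w f (2 ^ k * p) t then (2 : ℝ) ^ (k + 1) * p else 0) := by
    refine Finset.sum_le_sum fun k _ => ?_
    have hk : 0 < (2 : ℝ) ^ k * p := mul_pos (pow_pos two_pos k) hp
    have hk1 : 0 ≤ (2 : ℝ) ^ (k + 1) * p := (mul_pos (pow_pos two_pos (k + 1)) hp).le
    by_cases hE : ∃ r, r < m ∧ 2 ^ k * p ≤ sl N w f t r ∧ 2 ^ k * p ≤ D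
    · have hAct : Act N m w f (2 ^ k * p) t := by
        obtain ⟨r, hr, hr1, hr2⟩ := hE
        exact ⟨⟨r, hr, hr1⟩, ⟨r0, hr0m, hDa _ hk hr2⟩⟩
      rw [if_pos hE, if_pos hAct]
    · rw [if_neg hE]
      split_ifs
      · exact hk1
      · exact le_refl _
  have hb : 0 ≤ 4 * (b : ℝ) / L := div_nonneg (mul_nonneg (by norm_num) (Nat.cast_nonneg b)) hL.le
  have hF := mul_le_mul_of_nonneg_left (add_le_add_right hA p) hb
  linarith

end Pool.Agent.MP_a4c1f4_lc.BL
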