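import Pool.Agent.Lib.MP_a4c1f4_lc.BL.Spec

set_option autoImplicit false
set_option linter.all false

/-!
Online matching on the line, bounded load: the optimal flows are bounded by `2 b`.
-/

namespace Pool.Agent.MP_a4c1f4_lc.BL

open Finset
open Pool.Agent.MP_a4c1f4_lc.LM (Fz ps sm Opt dec pth zt Run mx cl)

theorem ptwP (h : Pool.Agent.MP_a4c1f4_lc.LM.S_Run) : B_Ptw := by
  intro N w z z' θ f S b hw hwp hθ hz hf hS hb k
  have hbk := abs_le.1 (hb k)
  have hb0 : (0 : ℤ) ≤ (b : ℤ) := Int.natCast_nonneg b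
  by_contra hcon
  have h1 : (b : ℤ) + 1 ≤ |f k - S k| := by
    by_contra h2
    apply hcon
    have h3 : |f k - S k| ≤ (b : ℤ) := by omega
    have h4 := abs_le.1 h3
    rw [abs_le]
    constructor <;> omega
  obtain ⟨a, b', ha, hak, hkb, hbN, hsum⟩ :=
    h N w z z' θ f S k ((b : ℤ) + 1) hw hθ hz hf hS (by omega) h1
  have h5 : (Icc a b').filter (fun k => (b : ℤ) + 1 ≤ |S k|) = ∅ := by
    apply Finset.filter_eq_empty_iff.2
    intro j _ hj
    have := hb j
    omega
  rw [h5, Finset.sum_empty, mul_zero] at hsum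
  have h6 : w k ≤ ∑ j ∈ Icc a b', w j :=
    Finset.single_le_sum (f := w) (fun j _ => hw j) (Finset.mem_Icc.2 ⟨hak, hkb⟩)
  have h7 := hwp k (le_trans ha hak) (le_trans hkb hbN)
  linarith

end Pool.Agent.MP_a4c1f4_lc.BL
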