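import Pool.Agent.Lib.MP_a4c1f4_lc.BL.Spec

set_option autoImplicit false

/-!
Online matching on the line, bounded load, module Refl: reflection of the run with a bounded final flow.
-/

namespace Pool.Agent.MP_a4c1f4_lc.BL

open Finset
open Pool.Agent.MP_a4c1f4_lc.LM (Fz ps sm Opt dec pth zt Run mx cl)

/-- reindexing of a sum over the edges -/
private theorem ReflAux_sum (N : ℕ) (g : ℕ → ℝ) :
    ∑ k ∈ Ico 1 (N + 1), g (N + 1 - k) = ∑ k ∈ Ico 1 (N + 1), g k := by
  refine sum_nbij' (fun k => N + 1 - k) (fun k => N + 1 - k) ?_ ?_ ?_ ?_ ?_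
  · intro k hk
    rw [mem_Ico] at hk ⊢
    omega
  · intro k hk
    rw [mem_Ico] at hk ⊢
    omega
  · intro k hk
    rw [mem_Ico] at hk
    omega
  · intro k hk
    rw [mem_Ico] at hk
    omega
  · intro k hk
    rfl

theorem reflP (h1 : Pool.Agent.MP_a4c1f4_lc.LM.S_RfO) (h2 : Pool.Agent.MP_a4c1f4_lc.LM.S_Rfl) : B_Refl := by
  intro N n m w c v x f S b O h
  refine ⟨⟨h2 N n m w c v x f h.run, ?_, ?_, ?_, ?_, h.one_le, ?_⟩, ?_⟩
  · intro k hk hkN
    exact h.w_pos (N + 1 - k) (by omega) (by omega)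
  · intro r hr
    have h3 := h.x_lt (m - (r + 1)) (by omega)
    have e : m - (r + 1) + 1 = m - r := by omega
    rw [e] at h3
    show -x (m - r) < -x (m - (r + 1))
    linarith
  · have hz : ∀ k, k ≤ N → zt (fun k => c (N - k)) (fun t => N - v t) n k = zt c v n (N - k) := by
      intro k hk
      unfold zt
      have e : (range n).filter (fun a => N - v a = k) = (range n).filter (fun a => v a = N - k) := by
        refine filter_congr fun a ha => ?_
        have h3 := h.run.v_le a (mem_range.1 ha)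
        omega
      rw [e]
    exact (h1 N w (zt c v n) (zt (fun k => c (N - k)) (fun t => N - v t) n) 0 S hz).1 h.feas
  · intro k
    show |-S (N + 1 - k)| ≤ (b : ℤ)
    rw [abs_neg]
    exact h.bd _
  · have e : Icc 1 N = Ico 1 (N + 1) := by
      ext k
      rw [mem_Icc, mem_Ico]
      omega
    have h3 := h.opt_le
    rw [e, ← ReflAux_sum] at h3
    rw [e]
    refine le_trans (le_of_eq ?_) h3
    refine sum_congr rfl fun k _ => ?_
    show w (N + 1 - k) * |((-S (N + 1 - k) : ℤ) : ℝ)| = w (N + 1 - k) * |(S (N + 1 - k) : ℝ)|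
    rw [Int.cast_neg, abs_neg]
  · intro t r
    unfold sl sg
    rw [← ReflAux_sum N (fun k => w k * ((f (t + 1) (m - 1 - r) k : ℝ) - (f t (m - 1 - r) k : ℝ))),
      ← sum_neg_distrib]
    refine sum_congr rfl fun k _ => ?_
    push_cast
    ring

end Pool.Agent.MP_a4c1f4_lc.BL
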