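import Pool.Agent.Lib.MP_a4c1f4_lc.BL.Spec

/-!
MP_a4c1f4_lc, BL: all rises.
-/

set_option autoImplicit false

namespace Pool.Agent.MP_a4c1f4_lc.BL

open Finset
open Pool.Agent.MP_a4c1f4_lc.LM (Fz ps sm Opt dec pth zt Run mx cl)

theorem riseP (h1 : B_Val) (h2 : B_One) (h3 : B_Cnt) : B_Rise := by
  classical
  intro N n m w c v x f S b O L p K hr hL hp hK
  obtain ⟨hm, hx, hf, hU0, hUs, hUO, hsl⟩ := h1 N n m w c v x f S b O hr
  have hd : ∀ r ∈ range m, 0 ≤ x (r + 1) - x r := fun r h =>
    sub_nonneg.2 (hr.run.x_mono r (mem_range.1 h))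
  have hds : ∑ r ∈ range m, (x (r + 1) - x r) = 2 / 3 := by
    rw [Finset.sum_range_sub, hr.run.x_last, hr.run.x_zero]
    norm_num
  have hsum := Finset.sum_le_sum (fun t ht =>
    h2 N n m w c v x f S b O L p K hr hL hp hK t (mem_range.1 ht))
  refine hsum.trans ?_
  rw [Finset.sum_add_distrib, Finset.sum_add_distrib, ← Finset.mul_sum, ← Finset.mul_sum,
    Finset.sum_add_distrib, Finset.sum_comm]
  have hA : ∑ r ∈ range m, ∑ t ∈ range n,
      (x (r + 1) - x r) * ((U N m w x f t r + U N m w x f t (r + 1)) / 2) ≤ 8 / 9 * O := by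
    have hA1 : ∀ r ∈ range m, ∑ t ∈ range n,
        (x (r + 1) - x r) * ((U N m w x f t r + U N m w x f t (r + 1)) / 2) ≤
        (x (r + 1) - x r) * (4 / 3 * O) := by
      intro r h
      rw [← Finset.mul_sum, ← Finset.sum_div, Finset.sum_add_distrib]
      refine mul_le_mul_of_nonneg_left ?_ (hd r h)
      have e1 := hUO r (mem_range.1 h).le
      have e2 := hUO (r + 1) (mem_range.1 h)
      linarith
    refine (Finset.sum_le_sum hA1).trans ?_
    rw [← Finset.sum_mul, hds]
    linarith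
  have hB : ∑ t ∈ range n, U N m w x f t m ≤ 4 / 3 * O := hUO m le_rfl
  have hC : ∑ t ∈ range n, ∑ k ∈ range K, (if Act N m w f (2 ^ k * p) t then 2 ^ (k + 1) * p else 0) ≤
      260 * (b : ℝ) * K * O := by
    rw [Finset.sum_comm]
    have hC1 : ∀ k ∈ range K, ∑ t ∈ range n, (if Act N m w f (2 ^ k * p) t then 2 ^ (k + 1) * p else 0) ≤
        260 * (b : ℝ) * O := by
      intro k _
      have e1 := h3 N n m w c v x f S b O (2 ^ k * p) hr (by positivity)
      rw [← Finset.sum_filter, Finset.sum_const, nsmul_eq_mul]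
      have e2 : ((((range n).filter (fun t => Act N m w f (2 ^ k * p) t)).card : ℝ) * (2 ^ (k + 1) * p)) =
          2 * ((((range n).filter (fun t => Act N m w f (2 ^ k * p) t)).card : ℝ) * (2 ^ k * p)) := by
        rw [pow_succ]
        ring
      have e3 : 2 * ((((range n).filter (fun t => Act N m w f (2 ^ k * p) t)).card : ℝ) * (2 ^ k * p)) ≤
          2 * (130 * b * O) := by
        refine mul_le_mul_of_nonneg_left ?_ (by norm_num)
        refine le_of_eq_of_le ?_ e1
        congr 3
      rw [e2]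
      linarith
    refine (Finset.sum_le_sum hC1).trans ?_
    rw [Finset.sum_const, Finset.card_range, nsmul_eq_mul]
    linarith
  have hD : L * ∑ r ∈ range m, ∑ t ∈ range n,
      (x (r + 1) - x r) * ((U N m w x f t r + U N m w x f t (r + 1)) / 2) ≤ L * (8 / 9 * O) :=
    mul_le_mul_of_nonneg_left hA hL.le
  have hE : 4 * (b : ℝ) / L * (∑ t ∈ range n, p + ∑ t ∈ range n, ∑ k ∈ range K,
      (if Act N m w f (2 ^ k * p) t then 2 ^ (k + 1) * p else 0)) ≤
      4 * (b : ℝ) / L * (n * p + 260 * b * K * O) := by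
    refine mul_le_mul_of_nonneg_left ?_ (by positivity)
    rw [Finset.sum_const, Finset.card_range, nsmul_eq_mul]
    linarith
  have hF : L * (8 / 9 * O) = 8 / 9 * L * O := by ring
  linarith

end Pool.Agent.MP_a4c1f4_lc.BL
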