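import Mathlib
import Pool.Agent.Lib.MP_a4c1f4_lc.LM.Defs
import Pool.Agent.Lib.MP_a4c1f4_lc.LM.Spec

set_option autoImplicit false
set_option linter.all false

/-!
Online matching on the line, bounded load: if the offline flow is at most `b` everywhere, the tilted
rule costs at most `O(b √(log n))` times the offline cost. Statements in the chain model (see
`LM/Defs.lean`), each with its proof in words.
-/

namespace Pool.Agent.MP_a4c1f4_lc.BL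

open Finset
open Pool.Agent.MP_a4c1f4_lc.LM (Fz ps sm Opt dec pth zt Run mx cl cr)

/-- The slope (in the tilt) of the price of the step `f → g`. -/
noncomputable def sg (N : ℕ) (w : ℕ → ℝ) (f g : ℕ → ℤ) : ℝ :=
  ∑ k ∈ Ico 1 (N + 1), w k * ((g k : ℝ) - (f k : ℝ))

/-- The least tilted cost at time `t` for the tilt `x r`, `r ≤ m`. -/
noncomputable def V (N m : ℕ) (w : ℕ → ℝ) (x : ℕ → ℝ) (f : ℕ → ℕ → ℕ → ℤ) (t r : ℕ) : ℝ :=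
  sm w (x r) 1 (N + 1) (f t (min r (m - 1)))

/-- The price of the request `t` at the tilt `x r`, `r ≤ m`. -/
noncomputable def U (N m : ℕ) (w : ℕ → ℝ) (x : ℕ → ℝ) (f : ℕ → ℕ → ℕ → ℤ) (t r : ℕ) : ℝ :=
  V N m w x f (t + 1) r - V N m w x f t r

/-- The slope of the price of the request `t` on the piece `r`. -/
noncomputable def sl (N : ℕ) (w : ℕ → ℝ) (f : ℕ → ℕ → ℕ → ℤ) (t r : ℕ) : ℝ :=
  sg N w (f t r) (f (t + 1) r)

/-- The request `t` is served from the left on some piece and from the right on some piece, both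
at a distance at least `d`. -/
def Act (N m : ℕ) (w : ℕ → ℝ) (f : ℕ → ℕ → ℕ → ℤ) (d : ℝ) (t : ℕ) : Prop :=
  (∃ r, r < m ∧ d ≤ sl N w f t r) ∧ ∃ r, r < m ∧ sl N w f t r ≤ -d

/-- The run together with a feasible final flow `S`, bounded by `b`. -/
structure BRun (N n m : ℕ) (w : ℕ → ℝ) (c : ℕ → ℤ) (v : ℕ → ℕ) (x : ℕ → ℝ)
    (f : ℕ → ℕ → ℕ → ℤ) (S : ℕ → ℤ) (b : ℕ) (O : ℝ) : Prop where
  run : Run N n m w c v x f
  w_pos : ∀ k, 1 ≤ k → k ≤ N → 0 < w k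
  x_lt : ∀ r, r < m → x r < x (r + 1)
  feas : Fz N (zt c v n) S
  bd : ∀ k, |S k| ≤ (b : ℤ)
  one_le : 1 ≤ b
  opt_le : ∑ k ∈ Icc 1 N, w k * |(S k : ℝ)| ≤ O

/-- PROOF: `sm w θ 1 (N+1) f = ∑ w |f| + θ ∑ w f`; direct. -/
def B_Aff : Prop := ∀ (N : ℕ) (w : ℕ → ℝ) (θ θ' : ℝ) (f g : ℕ → ℤ),
  sm w θ' 1 (N + 1) g - sm w θ' 1 (N + 1) f =
    sm w θ 1 (N + 1) g - sm w θ 1 (N + 1) f + (θ' - θ) * sg N w f g

/-- PROOF: for `g = pth v s f` the difference `g k - f k` is `1` on `(s, v]`, `-1` on `(v, s]`, `0`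
elsewhere (one of the two intervals is empty). -/
def B_Sg : Prop := ∀ (N : ℕ) (w : ℕ → ℝ) (v s : ℕ) (f : ℕ → ℤ), (∀ k, 0 ≤ w k) → v ≤ N → s ≤ N →
  ∑ k ∈ Icc 1 N, w k * |(pth v s f k : ℝ) - (f k : ℝ)| = |sg N w f (pth v s f)| ∧
  (s ≤ v → sg N w f (pth v s f) = ∑ k ∈ Ioc s v, w k) ∧
  (v ≤ s → sg N w f (pth v s f) = -∑ k ∈ Ioc v s, w k)

/-- The optimal flows are bounded. PROOF. `f k = 0` for `k = 0` and `k > N`. Else, if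
`b + 1 ≤ |f k - S k|`, `LM.S_Run` with `u = b + 1` gives an interval `[a, b']` containing `k` with
`∑_{[a,b']} w ≤ 3 ∑ (over an empty set) = 0`, but `w k > 0`. So `|f k - S k| ≤ b`. -/
def B_Ptw : Prop := ∀ (N : ℕ) (w : ℕ → ℝ) (z z' : ℕ → ℤ) (θ : ℝ) (f S : ℕ → ℤ) (b : ℕ),
  (∀ k, 0 ≤ w k) → (∀ k, 1 ≤ k → k ≤ N → 0 < w k) → |θ| ≤ 1 / 3 → (∀ k, z' k ≤ z k) →
  Opt N w z θ f → Fz N z' S → (∀ k, |S k| ≤ (b : ℤ)) → ∀ k, |f k| ≤ 2 * (b : ℤ)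

/-- The nearest free node, left. PROOF. Let `s < k ≤ v` and suppose `f (k+1) - f k + 1 ≤ z k`.
`f1 = f + 1` on the edges `(s, k]`, `f` elsewhere: in `Fz z` (node `s`: `f (s+1) - f s + 1 ≤ z s` since
`pth v s f ∈ Fz (dec z v)` and `s ≠ v`; node `k`: `f (k+1) - f k - 1`). `g1 = f + 1` on `(k, v]`, `f`
elsewhere (`g1 = f` if `k = v`): in `Fz (dec z v)` (node `k`: the slack; node `v > k`:
`f (v+1) - f v - 1 ≤ z v - 1`; for `k = v` the slack at `v`). The flows only differ on `(s, k]`, so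
`sm θ f1 - sm θ f = sm θ (pth v s f) - sm θ g1 =: c θ`; optimality of `f` and of `pth v s f` give
`0 ≤ c θ ≤ 0` for `θ = a` and `θ = a'`, but `c a' - c a = (a' - a) ∑_{(s,k]} w > 0`. -/
def B_Nl : Prop := ∀ (N : ℕ) (w : ℕ → ℝ) (z : ℕ → ℤ) (v s : ℕ) (f : ℕ → ℤ) (a a' : ℝ),
  (∀ k, 0 ≤ w k) → (∀ k, 1 ≤ k → k ≤ N → 0 < w k) → a < a' → v ≤ N → s < v →
  (∀ θ, a ≤ θ → θ ≤ a' → Opt N w z θ f) →
  (∀ θ, a ≤ θ → θ ≤ a' → Opt N w (dec z v) θ (pth v s f)) →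
  ∀ k, s < k → k ≤ v → f (k + 1) - f k = z k

/-- The nearest free node, right. PROOF. The same as `B_Nl`: let `v ≤ k < s` with slack at `k`;
`f1 = f - 1` on `(k, s]` in `Fz z` (node `s`: `f (s+1) - f s + 1 ≤ z s`, node `k`:
`f (k+1) - 1 - f k`), `g1 = f - 1` on `(v, k]` in `Fz (dec z v)` (node `v < k`: `f (v+1) - 1 - f v ≤
z v - 1`; node `k`: the slack). Now `c a' - c a = -(a' - a) ∑_{(k,s]} w < 0`. -/
def B_Nr : Prop := ∀ (N : ℕ) (w : ℕ → ℝ) (z : ℕ → ℤ) (v s : ℕ) (f : ℕ → ℤ) (a a' : ℝ),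
  (∀ k, 0 ≤ w k) → (∀ k, 1 ≤ k → k ≤ N → 0 < w k) → a < a' → v < s → s ≤ N →
  (∀ θ, a ≤ θ → θ ≤ a' → Opt N w z θ f) →
  (∀ θ, a ≤ θ → θ ≤ a' → Opt N w (dec z v) θ (pth v s f)) →
  ∀ k, v ≤ k → k < s → f (k + 1) - f k = z k

/-- The prices of two steps to the left with the same label. PROOF. `sm θ (pth v s f) - sm θ f =
cl w v f (pth v s f) θ + w v (ps θ (f v + 1) - ps θ (f v))` (the edges `> v` do not change, `1 ≤ v`), and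
`ps θ (j + 1) - ps θ j = |j + 1| - |j| + θ`; `LM.S_OrA` with `z' = z`, `v' = i = v`, `j = f v`. -/
def B_Ol : Prop := ∀ (N : ℕ) (w : ℕ → ℝ) (z : ℕ → ℤ) (v s s' : ℕ) (f f' : ℕ → ℤ) (θ θ' : ℝ),
  (∀ k, 0 ≤ w k) → v ≤ N → s < v → s' < v → θ ≤ θ' →
  Opt N w z θ f → Opt N w (dec z v) θ (pth v s f) →
  Opt N w z θ' f' → Opt N w (dec z v) θ' (pth v s' f') → f v = f' v →
  sm w θ 1 (N + 1) (pth v s f) - sm w θ 1 (N + 1) f ≤
    sm w θ' 1 (N + 1) (pth v s' f') - sm w θ' 1 (N + 1) f'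

/-- A continuous piecewise affine function `u ≥ 0` whose slopes `σ` are at least `-D`. PROOF. For each
`r < m` (write `A = u r`, `B = u (r+1)`, `y0 = D / L`, `I = ℓ r (A + B)/2`):
`ℓ r max (σ r) 0 ≤ L I + (max B y0 - max A y0) + below r`. (1) `σ r ≤ 0` (`B ≤ A`): need
`max A y0 - max B y0 ≤ L I`: trivial if `A ≤ y0`; if `B ≥ y0`: `A - B ≤ D ℓ = L y0 ℓ ≤ L I`; if
`B < y0 < A`: `2 y0 (A - y0) ≤ A² - y0² ≤ A² - B² = -σ ℓ (A + B) ≤ 2 L y0 I` and `y0 > 0` as `B ≥ 0`.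
(2) `0 < σ r ≤ D`, `y = σ r / L`: `B - A = (max B y - max A y) + (min B y - min A y)` and
`max B y - max A y ≤ L I` (if `A ≥ y`: `B - A = σ ℓ = L y ℓ`; if `A < y < B`:
`2 y (B - y) ≤ B² - A² = σ ℓ (A + B) = 2 L y I`), `max B y0 ≥ max A y0`. (3) `σ r > D`: equality with
`y = y0`, `I ≥ 0`. Sum over `r`; the middle terms telescope to `max (u m) y0 - max (u 0) y0 ≤ u m`. -/
def B_Calc : Prop := ∀ (m : ℕ) (u σ ℓ : ℕ → ℝ) (L D : ℝ), 0 < L → 0 ≤ D →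
  (∀ r, r ≤ m → 0 ≤ u r) → (∀ r, r < m → 0 ≤ ℓ r) → (∀ r, r < m → u (r + 1) = u r + σ r * ℓ r) →
  (∀ r, r < m → -D ≤ σ r) →
  ∑ r ∈ range m, ℓ r * max (σ r) 0 ≤
    L * ∑ r ∈ range m, ℓ r * ((u r + u (r + 1)) / 2) + u m +
    ∑ r ∈ range m, (if 0 < σ r then min (u (r + 1)) (min (σ r) D / L) -
      min (u r) (min (σ r) D / L) else 0)

open Classical in
/-- Ordered intervals. PROOF. Induction on `m`: for every `B ≥ 0` with `hi r ≤ B` for all `r < m`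
with `P r`, the sum is at most `min B y` (step: if `P m`, all earlier `hi r ≤ lo m`, use the induction
hypothesis with `B = lo m`). Then take for `B` the sum of all `|hi r|`. -/
def B_Ord : Prop := ∀ (m : ℕ) (P : ℕ → Prop) (lo hi : ℕ → ℝ) (y : ℝ), 0 ≤ y →
  (∀ r, r < m → P r → 0 ≤ lo r ∧ lo r ≤ hi r) →
  (∀ r r', r < r' → r' < m → P r → P r' → hi r ≤ lo r') →
  ∑ r ∈ range m, (if P r then min (hi r) y - min (lo r) y else 0) ≤ y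

open Classical in
/-- Dyadic scales. PROOF. For `r` with `0 < σ r` let `d = min (σ r) D`, and for `y ≥ 0` let
`β y r = min (u (r+1)) y - min (u r) y`, which is nonnegative and monotone in `y`. Either `d < p`, or
`2^k p ≤ d < 2^(k+1) p` for some `k < K`; so the term of `r` is at most
`β (p/L) r + ∑_{k < K} (if 2^k p ≤ d then β (2^(k+1) p / L) r else 0)`. For fixed `y` and a label `i`, the
sum of `β y r` over the `r` with `0 < σ r`, `j r = i` is `≤ y` by `B_Ord`; there are `4 b` labels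
`i ∈ Ico (-2b) (2b)`. If no `r` satisfies `2^k p ≤ d` the `k`-th sum is `0`. -/
def B_Dy : Prop := ∀ (m K b : ℕ) (u σ : ℕ → ℝ) (j : ℕ → ℤ) (L D p : ℝ), 0 < L → 0 ≤ D → 0 < p →
  (∀ r, r ≤ m → 0 ≤ u r) →
  (∀ r, r < m → 0 < σ r → u r ≤ u (r + 1) ∧ -(2 * (b : ℤ)) ≤ j r ∧ j r < 2 * (b : ℤ) ∧
    σ r < 2 ^ K * p) →
  (∀ r r', r < r' → r' < m → 0 < σ r → 0 < σ r' → j r = j r' → u (r + 1) ≤ u r') →
  ∑ r ∈ range m, (if 0 < σ r then min (u (r + 1)) (min (σ r) D / L) -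
      min (u r) (min (σ r) D / L) else 0) ≤
    4 * b / L * (p + ∑ k ∈ range K,
      (if ∃ r, r < m ∧ 2 ^ k * p ≤ σ r ∧ 2 ^ k * p ≤ D then 2 ^ (k + 1) * p else 0))

/-- Elementary facts. PROOF. (1) `x 0 ≠ x m`. (2) `-1/3 ≤ x r ≤ 1/3` by monotonicity. (3) `B_Ptw` with
`z = zt c v t`, `z' = zt c v n` (`LM.S_Zt`), `θ = x r`. (4) both `f t r`, `f (t+1) r` are optimal at `x r`
and at `x (r+1)`; `zt (t+1) = dec (zt t) (v t) ≤ zt t`, so `f (t+1) r ∈ Fz (zt t)` and the price is `≥ 0`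
(for `r = m` use the piece `m - 1`). (5) For `t' = t`, `t + 1`: `V t' (r+1) = sm w (x (r+1)) (f t' r)`, since
`f t' r` and `f t' (r+1)` (if `r + 1 < m`) are both optimal at `x (r+1)`; then `B_Aff`. (6) The sum
telescopes to `V n r - V 0 r`, `V 0 r = 0` (`f 0 = 0`), `V n r ≤ sm w (x r) S ≤ (4/3) ∑ w |S| ≤ (4/3) O`.
(7) `|sl| ≤ ∑ w |f (t+1) r| + ∑ w |f t r|` and `(2/3) ∑ w |f t r| ≤ sm w (x r) (f t r) ≤ sm w (x r) S ≤
(4/3) O`. (8) by (4), (5) for `u r`. -/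
def B_Val : Prop := ∀ (N n m : ℕ) (w : ℕ → ℝ) (c : ℕ → ℤ) (v : ℕ → ℕ) (x : ℕ → ℝ)
  (f : ℕ → ℕ → ℕ → ℤ) (S : ℕ → ℤ) (b : ℕ) (O : ℝ), BRun N n m w c v x f S b O →
  0 < m ∧
  (∀ r, r ≤ m → |x r| ≤ 1 / 3) ∧
  (∀ t r k, t ≤ n → r < m → |f t r k| ≤ 2 * (b : ℤ)) ∧
  (∀ t r, t < n → r ≤ m → 0 ≤ U N m w x f t r) ∧
  (∀ t r, t < n → r < m →
    U N m w x f t (r + 1) = U N m w x f t r + sl N w f t r * (x (r + 1) - x r)) ∧
  (∀ r, r ≤ m → ∑ t ∈ range n, U N m w x f t r ≤ 4 / 3 * O) ∧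
  (∀ t r, t < n → r < m → |sl N w f t r| ≤ 4 * O)

/-- Order of the rising pieces. PROOF. `f (t+1) r = pth (v t) s (f t r)` (`Run.step`); by `B_Sg`
`0 < sl` excludes `v t ≤ s`, so `s < v t`. (1) `f (t+1) r (v t) = f t r (v t) + 1 ≤ 2 b` (`B_Val` (3)).
(2) `B_Ol` with `θ = x (r+1) ≤ θ' = x r'`, and `U t (r+1) = sm w (x (r+1)) (f (t+1) r) -
sm w (x (r+1)) (f t r)` (by `B_Val` (5) and `B_Aff`, since `U t r = sm w (x r) (f (t+1) r) -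
sm w (x r) (f t r)` for `r < m` by definition). -/
def B_Lab : Prop := ∀ (N n m : ℕ) (w : ℕ → ℝ) (c : ℕ → ℤ) (v : ℕ → ℕ) (x : ℕ → ℝ)
  (f : ℕ → ℕ → ℕ → ℤ) (S : ℕ → ℤ) (b : ℕ) (O : ℝ), BRun N n m w c v x f S b O →
  (∀ t r, t < n → r < m → 0 < sl N w f t r →
    -(2 * (b : ℤ)) ≤ f t r (v t) ∧ f t r (v t) < 2 * (b : ℤ)) ∧
  ∀ t r r', t < n → r < r' → r' < m → 0 < sl N w f t r → 0 < sl N w f t r' →
    f t r (v t) = f t r' (v t) → U N m w x f t (r + 1) ≤ U N m w x f t r'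

open Classical in
/-- One request. PROOF. `D` = the maximum of `max (-sl t r) 0` over `r < m` (attained, `m > 0`).
`B_Calc` and `B_Dy` with `u r = U t r`, `σ r = sl t r`, `ℓ r = x (r+1) - x r`, `j r = f t r (v t)`
(`B_Val`, `B_Lab`; `σ r ≤ 4 O < 2^K p`). If `2^k p ≤ σ r` and `2^k p ≤ D`, then `D > 0` and
`D = -sl t r'` for some `r' < m`, so `Act (2^k p) t`. -/
def B_One : Prop := ∀ (N n m : ℕ) (w : ℕ → ℝ) (c : ℕ → ℤ) (v : ℕ → ℕ) (x : ℕ → ℝ)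
  (f : ℕ → ℕ → ℕ → ℤ) (S : ℕ → ℤ) (b : ℕ) (O L p : ℝ) (K : ℕ), BRun N n m w c v x f S b O →
  0 < L → 0 < p → 4 * O < 2 ^ K * p → ∀ t, t < n →
  ∑ r ∈ range m, (x (r + 1) - x r) * max (sl N w f t r) 0 ≤
    L * ∑ r ∈ range m, (x (r + 1) - x r) * ((U N m w x f t r + U N m w x f t (r + 1)) / 2) +
    U N m w x f t m +
    4 * b / L * (p + ∑ k ∈ range K, (if Act N m w f (2 ^ k * p) t then 2 ^ (k + 1) * p else 0))

open Classical in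
/-- Crowding. PROOF. If the set is empty, fine. Let `t1` be its least element, `v1 = v t1`. On a piece
`r` with `d ≤ sl t1 r` the step is `pth v1 s` with `s < v1` and `∑_{(s, v1]} w ≥ d > ∑_{(l,h]} w`, so
`s < l`; by `B_Nl`: `zt t1 k = f t1 r (k+1) - f t1 r k` for `l ≤ k ≤ v1`. On a piece `r'` with
`sl t1 r' ≤ -d`: `pth v1 s'` with `h < s'`, by `B_Nr`: `zt t1 k = f t1 r' (k+1) - f t1 r' k` for
`v1 ≤ k ≤ h`. So `∑_{k ∈ Icc l h} zt t1 k = (f t1 r (v1+1) - f t1 r l) + (f t1 r' (h+1) -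
f t1 r' (v1+1)) ≤ 8 b` (`B_Val` (3)). `∑_{k ∈ Icc l h} zt n k ≥ S (h+1) - S l ≥ -2b`. The number of
`t ∈ [t1, n)` with `v t ∈ [l, h]` is `∑ zt t1 - ∑ zt n ≤ 10 b`. -/
def B_Crd : Prop := ∀ (N n m : ℕ) (w : ℕ → ℝ) (c : ℕ → ℤ) (v : ℕ → ℕ) (x : ℕ → ℝ)
  (f : ℕ → ℕ → ℕ → ℤ) (S : ℕ → ℤ) (b : ℕ) (O d : ℝ) (l h : ℕ), BRun N n m w c v x f S b O →
  0 < d → l ≤ h → h ≤ N → ∑ k ∈ Ioc l h, w k < d →
  ((range n).filter (fun t => Act N m w f d t ∧ l ≤ v t ∧ v t ≤ h)).card ≤ 10 * b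

open Classical in
/-- Number of the active requests. PROOF. For an active `t` choose a piece with `d ≤ sl t r`, the step
is `pth (v t) s`, `s < v t`, `∑_{(s, v t]} w ≥ d`. Let `E t = {k ∈ Ioc s (v t) | ∑_{(k, v t]} w < d}`; then
`∑_{E t} w ≥ d` (if `E t` is not all of `(s, v t]`, let `k0` be its largest element outside `E t`; then
`(k0, v t] ⊆ E t` has weight `≥ d`), and `1 ≤ mx k` for `k ∈ E t` (`f (t+1) r k = f t r k + 1`). So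
`d #act ≤ ∑_{t act} ∑_{k ∈ E t} w k ≤ ∑_{k ∈ Icc 1 N, 1 ≤ mx k} w k #{t act | k ∈ E t}`, and
`{t act | k ∈ E t} ⊆ {t act | k ≤ v t ≤ h}`, `h` the largest `v t` of these, `∑_{(k,h]} w < d`: at most
`10 b` elements by `B_Crd` with `l = k`. Finally `∑_{1 ≤ mx k} w k ≤ ∑ w k mx k ≤ 13 O` (`LM.S_Fst`). -/
def B_Cnt : Prop := ∀ (N n m : ℕ) (w : ℕ → ℝ) (c : ℕ → ℤ) (v : ℕ → ℕ) (x : ℕ → ℝ)
  (f : ℕ → ℕ → ℕ → ℤ) (S : ℕ → ℤ) (b : ℕ) (O d : ℝ), BRun N n m w c v x f S b O → 0 < d →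
  (((range n).filter (fun t => Act N m w f d t)).card : ℝ) * d ≤ 130 * b * O

/-- All rises. PROOF. Sum `B_One` over `t < n`. First term: `B_Val` (6) for `x r` and `x (r+1)`, the
lengths sum up to `2/3`: `L (2/3) (4/3) O`. Second: `B_Val` (6) with `r = m`. Third: exchange the sums,
`∑_t (if Act (2^k p) t then 2^(k+1) p else 0) = 2 # 2^k p ≤ 260 b O` (`B_Cnt`). -/
def B_Rise : Prop := ∀ (N n m : ℕ) (w : ℕ → ℝ) (c : ℕ → ℤ) (v : ℕ → ℕ) (x : ℕ → ℝ)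
  (f : ℕ → ℕ → ℕ → ℤ) (S : ℕ → ℤ) (b : ℕ) (O L p : ℝ) (K : ℕ), BRun N n m w c v x f S b O →
  0 < L → 0 < p → 4 * O < 2 ^ K * p →
  ∑ t ∈ range n, ∑ r ∈ range m, (x (r + 1) - x r) * max (sl N w f t r) 0 ≤
    8 / 9 * L * O + 4 / 3 * O + 4 * b / L * (n * p + 260 * b * K * O)

/-- Reflection. PROOF. (1) `LM.S_Rfl` for the run (its proof `rflP` from `rfOP`); `S` reflected is
feasible by `LM.S_RfO` (1) with `z1 = zt` of the reflected data, which is `zt c v n (N - k)` for `k ≤ N`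
(all `v a ≤ N`); the sum is reindexed by `k ↦ N + 1 - k`. (2) reindex by `k ↦ N + 1 - k`. -/
def B_Refl : Prop := ∀ (N n m : ℕ) (w : ℕ → ℝ) (c : ℕ → ℤ) (v : ℕ → ℕ) (x : ℕ → ℝ)
  (f : ℕ → ℕ → ℕ → ℤ) (S : ℕ → ℤ) (b : ℕ) (O : ℝ), BRun N n m w c v x f S b O →
  BRun N n m (fun k => w (N + 1 - k)) (fun k => c (N - k)) (fun t => N - v t)
    (fun r => -x (m - r)) (fun t r k => -f t (m - 1 - r) (N + 1 - k))
    (fun k => -S (N + 1 - k)) b O ∧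
  ∀ t r, sl N (fun k => w (N + 1 - k)) (fun t r k => -f t (m - 1 - r) (N + 1 - k)) t r =
    -sl N w f t (m - 1 - r)

/-- Rises and falls. PROOF. `|a| = max a 0 + max (-a) 0`; `B_Rise` for the run and for the reflected
run (`B_Refl`; reindex `r ↦ m - 1 - r`: the length of the piece `r` of the reflected run is
`x (m - r) - x (m - (r + 1))`). -/
def B_Both : Prop := ∀ (N n m : ℕ) (w : ℕ → ℝ) (c : ℕ → ℤ) (v : ℕ → ℕ) (x : ℕ → ℝ)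
  (f : ℕ → ℕ → ℕ → ℤ) (S : ℕ → ℤ) (b : ℕ) (O L p : ℝ) (K : ℕ), BRun N n m w c v x f S b O →
  0 < L → 0 < p → 4 * O < 2 ^ K * p →
  ∑ t ∈ range n, ∑ r ∈ range m, (x (r + 1) - x r) * |sl N w f t r| ≤
    2 * (8 / 9 * L * O + 4 / 3 * O + 4 * b / L * (n * p + 260 * b * K * O))

/-- PROOF. `K = Nat.log 2 (4 n) + 1`: `4 n < 2^K` (`Nat.lt_pow_succ_log_self`), and with `y = log n ≥ 1`:
`K ≤ log (4 n) / log 2 + 1 = y / log 2 + 3 ≤ 5 y` (`log 2 > 0.69`, `y ≥ log 3 > 1.09`). `L = 75 b √y`.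
`1 + 260 b K ≤ 261 b K ≤ 1305 b y`, so `2 (4 b / L) (1 + 260 b K) ≤ (8/75) 1305 b √y = 139.2 b √y`;
`(16/9) L = (400/3) b √y`; `8/3 ≤ (8/3) b √y`. The sum is at most `276 b √y ≤ (1000/3) b √y`. -/
def B_Num : Prop := ∀ (n b : ℕ), 3 ≤ n → 1 ≤ b → ∃ (K : ℕ) (L : ℝ), 0 < L ∧
  4 * (n : ℝ) < 2 ^ K ∧
  2 * (8 / 9 * L + 4 / 3 + 4 * b / L * (1 + 260 * b * K)) ≤
    1000 / 3 * (b * Real.sqrt (Real.log n))

/-- The main inequality. PROOF. `B_Both` with `p = O / n` and `K`, `L` from `B_Num`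
(`4 O < 2^K p`, `n p = O`), and `∑ w |f (t+1) r - f t r| = |sl t r|` by `Run.step` and `B_Sg`; exchange
the sums. -/
def B_Main : Prop := ∀ (N n m : ℕ) (w : ℕ → ℝ) (c : ℕ → ℤ) (v : ℕ → ℕ) (x : ℕ → ℝ)
  (f : ℕ → ℕ → ℕ → ℤ) (S : ℕ → ℤ) (b : ℕ) (O : ℝ), BRun N n m w c v x f S b O → 3 ≤ n → 0 < O →
  ∑ r ∈ range m, (x (r + 1) - x r) *
    ∑ t ∈ range n, ∑ k ∈ Icc 1 N, w k * |(f (t + 1) r k : ℝ) - (f t r k : ℝ)| ≤
    1000 / 3 * (b * Real.sqrt (Real.log n)) * O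

end Pool.Agent.MP_a4c1f4_lc.BL
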