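import Mathlib
import Pool.Agent.Lib.MP_a4c1f4_lc.Dbl.LDefs
import Pool.Agent.Lib.MP_a4c1f4_lc.LM.SpecL
import Pool.Agent.Lib.MP_a4c1f4_lc.BL.Spec

set_option autoImplicit false
set_option linter.all false

/-!
Online matching on the line, bounded load: from the chain model to the real line.
-/

namespace Pool.Agent.MP_a4c1f4_lc.BL

open Finset MeasureTheory
open Pool.Agent.MP_a4c1f4_lc.LM (dv fl Chain)
open Pool.Agent.MP_a4c1f4_lc.Dbl.L (assigned cost Respects)

/-- The load in the chain model. PROOF. `k = 0`: nothing is `< 0`, the flow is `0`. `k ≥ 1`: take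
`y = p (k - 1)`: `s j = p (σ j) ≤ p (k - 1) ↔ σ j < k`, `x = p (nd x) ≤ p (k - 1) ↔ nd x < k`, so
`dv s τ l y = fl σ nd τ l k` as real numbers (induction on the two lists separately). -/
def T_Ld : Prop := ∀ (m : ℕ) (s : Fin m → ℝ) (L : List ℝ) (N : ℕ) (p : ℕ → ℝ) (σ : Fin m → ℕ)
  (nd : ℝ → ℕ) (τ : List (Fin m)) (l : List ℝ) (b : ℕ), Chain s L N p σ nd →
  (∀ x, x ∈ l → x ∈ L) → (∀ y, |dv s τ l y| ≤ b) → ∀ k, |fl σ nd τ l k| ≤ (b : ℤ)

/-- The theorem with both bounds. PROOF. As `LM.topP` (file `LM/Top.lean`, copy it). For the second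
bound `BRun` holds with `S = fl σ nd τ l` and `O = cost s l τ + ε`: `run` is `LM.T_Rd`, `w_pos`:
`0 < p k - p (k - 1)` for `1 ≤ k`, `x_lt`: the choice of the pieces, `feas`, `opt_le`: as in `LM.topP`,
`bd`: `T_Ld`; then `B_Main` instead of `LM.S_Main`: the integral is at most
`(3/2) (1000/3) b √(log n) O`. Let `ε → 0`. -/
def T_Top2 : Prop := ∀ (m : ℕ) (hm : 0 < m) (s : Fin m → ℝ) (cap : Fin m → ℕ),
  ∃ (Ω : Type) (_ : MeasurableSpace Ω) (μ : Measure Ω) (_ : IsProbabilityMeasure μ)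
    (A : Ω → ℝ → List ℝ → Fin m),
    (∀ x l, Measurable (fun ω => A ω x l)) ∧
    (∀ ω l, l.length ≤ ∑ j, cap j → Respects cap (assigned (A ω) l)) ∧
    ∀ (l : List ℝ) (τ : List (Fin m)), 3 ≤ l.length → τ.length = l.length → Respects cap τ →
      ∫ ω, cost s l (assigned (A ω) l) ∂μ ≤
        8000 * (Real.log l.length / Real.log (Real.log l.length)) * cost s l τ ∧
      ∀ b : ℕ, 1 ≤ b → (∀ y, |dv s τ l y| ≤ b) →
        ∫ ω, cost s l (assigned (A ω) l) ∂μ ≤
          500 * (b * Real.sqrt (Real.log l.length)) * cost s l τ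

end Pool.Agent.MP_a4c1f4_lc.BL
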