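import Pool.Agent.Lib.MP_a4c1f4_lc.BL.SpecT
import Pool.Agent.Lib.MP_a4c1f4_lc.LM.Br
import Pool.Agent.Lib.MP_a4c1f4_lc.LM.Top

set_option autoImplicit false
set_option linter.all false

/-!
Online matching on the line, bounded load: the theorem with both bounds, from the two main
inequalities for the chain model.
-/

namespace Pool.Agent.MP_a4c1f4_lc.BL

open Finset MeasureTheory
open Pool.Agent.MP_a4c1f4_lc.LM (Fz ps sm Opt dec pth zt Run mx cl dv fl Chain wd cn vt ft fu rule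
  tilt)
open Pool.Agent.MP_a4c1f4_lc.Dbl.L (assigned cost Respects)

theorem ldP : T_Ld := by
  intro m s L N p σ nd τ l b hC hl hb k
  rcases Nat.eq_zero_or_pos k with hk | hk
  · subst hk
    have h0 : fl σ nd τ l 0 = 0 := by
      unfold fl
      simp
    rw [h0]
    simp
  · have h1 := LM.BrAux.dv_in hC τ l hl k hk (p (k - 1)) le_rfl (hC.mono (by omega))
    have h2 := hb (p (k - 1))
    rw [h1] at h2
    have h3 : ((|fl σ nd τ l k| : ℤ) : ℝ) ≤ ((b : ℤ) : ℝ) := by
      push_cast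
      exact h2
    exact_mod_cast h3

namespace Top2Aux

/-- The data of the run for the list `l` and the tilts, with the integral as a sum. -/
theorem core (h1 : LM.T_Msh) (h2 : LM.T_Fl) (h3 : LM.T_Cap) (h4 : LM.T_Opt) (h5 : LM.T_Cst)
    (h6 : LM.T_Pcs) (h7 : LM.T_En) (h8 : LM.T_PI) (h10 : LM.T_Zv) (h11 : LM.T_Rd)
    (m : ℕ) (hm : 0 < m) (s : Fin m → ℝ) (cap : Fin m → ℕ) (l : List ℝ) (τ : List (Fin m))
    (hn : 3 ≤ l.length) (hτ : τ.length = l.length) (hR : Respects cap τ) (O : ℝ)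
    (hO : 0 < O) (hOc : cost s l τ ≤ O) :
    ∃ (N q : ℕ) (p : ℕ → ℝ) (σ : Fin m → ℕ) (nd : ℝ → ℕ) (x : ℕ → ℝ), Chain s l N p σ nd ∧
      (∀ k, wd p k ≤ O / l.length) ∧ (∀ r, r < q → x r < x (r + 1)) ∧
      Run N l.length q (wd p) (cn cap σ) (vt nd l) x (ft hm s cap σ nd l x) ∧
      Fz N (zt (cn cap σ) (vt nd l) l.length) (fl σ nd τ l) ∧
      ∑ k ∈ Icc 1 N, wd p k * |(fl σ nd τ l k : ℝ)| ≤ O ∧
      ∫ θ, cost s l (assigned (rule hm s cap θ) l) ∂tilt =
        3 / 2 * ∑ r ∈ range q, (x (r + 1) - x r) *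
          ∑ t ∈ range l.length, ∑ k ∈ Icc 1 N, wd p k *
          |(ft hm s cap σ nd l x (t + 1) r k : ℝ) - (ft hm s cap σ nd l x t r k : ℝ)| := by
  have hlen : l.length ≤ ∑ j, cap j := by
    rw [← hτ, ← LM.TopAux.length_eq τ]
    exact Finset.sum_le_sum fun j _ => hR j
  have hn0 : (0 : ℝ) < l.length := by
    have : 0 < l.length := by omega
    exact_mod_cast this
  obtain ⟨N, p, σ, nd, hch, hw⟩ := h1 m s l (O / l.length) (div_pos hO hn0)
  obtain ⟨X, hX⟩ := h6 m hm s cap l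
  obtain ⟨q, x, hq, hx0, hxq, hxm, hxX⟩ := h7 X (-(1 / 3)) (1 / 3) (by norm_num)
  have hc0 : ∀ r, r < q → ∀ θ θ', θ ≤ θ' → x r < θ → θ' < x (r + 1) →
      LM.run hm s cap θ l = LM.run hm s cap θ' l := by
    intro r hr θ θ' hle ha hb
    refine hX θ θ' hle fun y hy => ?_
    rcases hxX r hr y hy with h | h
    · exact Or.inl (lt_of_le_of_lt h ha)
    · exact Or.inr (lt_of_lt_of_le hb h)
  have hconst : ∀ r, r < q → ∀ θ θ', x r < θ → θ < x (r + 1) → x r < θ' → θ' < x (r + 1) →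
      LM.run hm s cap θ l = LM.run hm s cap θ' l := by
    intro r hr θ θ' ha hb ha' hb'
    rcases le_total θ θ' with h | h
    · exact hc0 r hr θ θ' h ha hb'
    · exact (hc0 r hr θ' θ h ha' hb).symm
  have hRun := h11 m hm s cap l N p σ nd q x hch hlen hx0 hxq hxm hconst
  have hFz : Fz N (zt (cn cap σ) (vt nd l) l.length) (fl σ nd τ l) := by
    have hz := h10 (cn cap σ) nd l l.length le_rfl
    rw [Nat.sub_self, List.drop_zero] at hz
    rw [hz]
    exact h2.2.2.2.1 m N cap σ nd τ l hR hτ (fun j => (hch.site j).2)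
      (fun y hy => (hch.req y hy).2)
  have hnorm : ∑ k ∈ Icc 1 N, wd p k * |(fl σ nd τ l k : ℝ)| ≤ O := by
    have := h4 m s l N p σ nd τ l hch (fun y hy => hy) hτ
    linarith
  have hcst : ∀ r, cost s l (LM.run hm s cap ((x r + x (r + 1)) / 2) l) =
      ∑ t ∈ range l.length, ∑ k ∈ Icc 1 N, wd p k *
        |(ft hm s cap σ nd l x (t + 1) r k : ℝ) - (ft hm s cap σ nd l x t r k : ℝ)| := by
    intro r
    exact h5 m s l N p σ nd (LM.run hm s cap ((x r + x (r + 1)) / 2) l) l hch (fun y hy => hy)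
      (h3 m hm s cap _ l).2.1
  have hint := h8.2 q x (fun θ => cost s l (assigned (rule hm s cap θ) l))
    (fun r => cost s l (LM.run hm s cap ((x r + x (r + 1)) / 2) l)) hx0 hxq hxm (by
      intro r hr θ ha hb
      have hlt := hxm r hr
      show cost s l (assigned (rule hm s cap θ) l) = _
      rw [(h3 m hm s cap θ l).1, hconst r hr θ ((x r + x (r + 1)) / 2) ha hb (by linarith)
        (by linarith)])
  have hint' : ∫ θ, cost s l (assigned (rule hm s cap θ) l) ∂tilt =
      3 / 2 * ∑ r ∈ range q, (x (r + 1) - x r) *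
        ∑ t ∈ range l.length, ∑ k ∈ Icc 1 N, wd p k *
        |(ft hm s cap σ nd l x (t + 1) r k : ℝ) - (ft hm s cap σ nd l x t r k : ℝ)| := by
    refine hint.trans ?_
    congr 1
    refine Finset.sum_congr rfl fun r _ => ?_
    rw [hcst r]
  exact ⟨N, q, p, σ, nd, x, hch, hw, hxm, hRun, hFz, hnorm, hint'⟩

end Top2Aux

theorem top2P (h1 : LM.T_Msh) (h2 : LM.T_Fl) (h3 : LM.T_Cap) (h4 : LM.T_Opt) (h5 : LM.T_Cst)
    (h6 : LM.T_Pcs) (h7 : LM.T_En) (h8 : LM.T_PI) (h9 : LM.T_Msb) (h10 : LM.T_Zv) (h11 : LM.T_Rd)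
    (h12 : LM.S_Main) (h13 : B_Main) (h14 : T_Ld) : T_Top2 := by
  intro m hm s cap
  refine ⟨ℝ, _, tilt, h8.1, rule hm s cap, ?_, ?_, ?_⟩
  · intro x l
    exact h9 m hm s cap x l
  · intro θ l hl
    obtain ⟨ha, -, -, hr, -⟩ := h3 m hm s cap θ l
    rw [ha]
    exact hr hl
  · intro l τ hn hτ hR
    have hC : 0 ≤ cost s l τ := LM.TopAux.cost_nonneg s l τ
    refine ⟨?_, ?_⟩
    · refine LM.TopAux.le_lim _ _ _ fun ε hε => ?_
      have hO : 0 < cost s l τ + ε := by linarith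
      obtain ⟨N, q, p, σ, nd, x, hch, hw, hxm, hRun, hFz, hnorm, hint⟩ :=
        Top2Aux.core h1 h2 h3 h4 h5 h6 h7 h8 h10 h11 m hm s cap l τ hn hτ hR
          (cost s l τ + ε) hO (by linarith)
      have hmain := h12 N l.length q (wd p) (cn cap σ) (vt nd l) x (ft hm s cap σ nd l x)
        (fl σ nd τ l) (cost s l τ + ε) hRun hn hO hw hFz hnorm
      rw [hint]
      linarith
    · intro b hb1 hb
      refine LM.TopAux.le_lim _ _ _ fun ε hε => ?_
      have hO : 0 < cost s l τ + ε := by linarith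
      obtain ⟨N, q, p, σ, nd, x, hch, hw, hxm, hRun, hFz, hnorm, hint⟩ :=
        Top2Aux.core h1 h2 h3 h4 h5 h6 h7 h8 h10 h11 m hm s cap l τ hn hτ hR
          (cost s l τ + ε) hO (by linarith)
      have hB : BRun N l.length q (wd p) (cn cap σ) (vt nd l) x (ft hm s cap σ nd l x)
          (fl σ nd τ l) b (cost s l τ + ε) :=
        { run := hRun
          w_pos := by
            intro k hk _
            have := hch.mono (show k - 1 < k by omega)
            unfold LM.wd
            linarith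
          x_lt := hxm
          feas := hFz
          bd := h14 m s l N p σ nd τ l b hch (fun y hy => hy) hb
          one_le := hb1
          opt_le := hnorm }
      have hmain := h13 N l.length q (wd p) (cn cap σ) (vt nd l) x (ft hm s cap σ nd l x)
        (fl σ nd τ l) b (cost s l τ + ε) hB hn hO
      rw [hint]
      linarith

end Pool.Agent.MP_a4c1f4_lc.BL
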