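import Pool.Agent.Lib.MP_a4c1f4_lc.BL.Spec

set_option autoImplicit false

/-!
Elementary facts on the prices of the tilted rule (`B_Val`).
-/

namespace Pool.Agent.MP_a4c1f4_lc.BL

open Finset
open Pool.Agent.MP_a4c1f4_lc.LM (Fz ps sm Opt dec pth zt Run mx cl)

namespace ValAux

/-- Feasibility for smaller bounds gives feasibility for larger bounds. -/
theorem fz_mono {N : ℕ} {z z' g : ℕ → ℤ} (h : ∀ k, z' k ≤ z k) (hg : Fz N z' g) : Fz N z g :=
  ⟨hg.1, hg.2.1, fun k hk => le_trans (hg.2.2 k hk) (h k)⟩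

theorem ps_le {θ : ℝ} (h : |θ| ≤ 1 / 3) (j : ℤ) : ps θ j ≤ 4 / 3 * |(j : ℝ)| := by
  unfold ps
  have h1 : θ * (j : ℝ) ≤ |θ| * |(j : ℝ)| := by
    rw [← abs_mul]
    exact le_abs_self _
  have h2 : |θ| * |(j : ℝ)| ≤ 1 / 3 * |(j : ℝ)| := mul_le_mul_of_nonneg_right h (abs_nonneg _)
  linarith

theorem le_ps {θ : ℝ} (h : |θ| ≤ 1 / 3) (j : ℤ) : 2 / 3 * |(j : ℝ)| ≤ ps θ j := by
  unfold ps
  have h1 : -(θ * (j : ℝ)) ≤ |θ| * |(j : ℝ)| := by
    rw [← abs_mul]
    exact neg_le_abs _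
  have h2 : |θ| * |(j : ℝ)| ≤ 1 / 3 * |(j : ℝ)| := mul_le_mul_of_nonneg_right h (abs_nonneg _)
  linarith

theorem sm_le {N : ℕ} {w : ℕ → ℝ} {θ : ℝ} (hw : ∀ k, 0 ≤ w k) (h : |θ| ≤ 1 / 3) (g : ℕ → ℤ) :
    sm w θ 1 (N + 1) g ≤ 4 / 3 * ∑ k ∈ Ico 1 (N + 1), w k * |(g k : ℝ)| := by
  unfold sm
  rw [Finset.mul_sum]
  refine Finset.sum_le_sum fun k _ => ?_
  have h1 := mul_le_mul_of_nonneg_left (ps_le h (g k)) (hw k)
  linarith

theorem le_sm {N : ℕ} {w : ℕ → ℝ} {θ : ℝ} (hw : ∀ k, 0 ≤ w k) (h : |θ| ≤ 1 / 3) (g : ℕ → ℤ) :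
    2 / 3 * ∑ k ∈ Ico 1 (N + 1), w k * |(g k : ℝ)| ≤ sm w θ 1 (N + 1) g := by
  unfold sm
  rw [Finset.mul_sum]
  refine Finset.sum_le_sum fun k _ => ?_
  have h1 := mul_le_mul_of_nonneg_left (le_ps h (g k)) (hw k)
  linarith

end ValAux

open ValAux in
/-- Elementary facts on the prices. -/
theorem valP (h1 : B_Aff) (h2 : B_Ptw) (h3 : Pool.Agent.MP_a4c1f4_lc.LM.S_Zt) : B_Val := by
  intro N n m w c v x f S b O hB
  have hR := hB.run
  have hm : 0 < m := by
    rcases Nat.eq_zero_or_pos m with h | h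
    · exfalso
      have e1 := hR.x_zero
      have e2 := hR.x_last
      rw [h] at e2
      rw [e1] at e2
      norm_num at e2
    · exact h
  have hmono : ∀ r r', r ≤ r' → r' ≤ m → x r ≤ x r' := by
    intro r r' hrr
    induction r', hrr using Nat.le_induction with
    | base => intro _; exact le_rfl
    | succ q _ ih =>
      intro hq
      exact le_trans (ih (by omega)) (hR.x_mono q (by omega))
  have hx : ∀ r, r ≤ m → |x r| ≤ 1 / 3 := by
    intro r hr
    rw [abs_le]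
    constructor
    · rw [← hR.x_zero]
      exact hmono 0 r (Nat.zero_le _) hr
    · rw [← hR.x_last]
      exact hmono r m hr le_rfl
  have hopl : ∀ t r, t ≤ n → r < m → Opt N w (zt c v t) (x r) (f t r) := fun t r ht hr =>
    hR.opt t r ht hr (x r) le_rfl (hR.x_mono r hr)
  have hopr : ∀ t r, t ≤ n → r < m → Opt N w (zt c v t) (x (r + 1)) (f t r) := fun t r ht hr =>
    hR.opt t r ht hr (x (r + 1)) (hR.x_mono r hr) le_rfl
  have hopV : ∀ t r, t ≤ n → r ≤ m → Opt N w (zt c v t) (x r) (f t (min r (m - 1))) := by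
    intro t r ht hr
    rcases Nat.lt_or_ge r m with h | h
    · have e : min r (m - 1) = r := by omega
      rw [e]
      exact hopl t r ht h
    · have e : min r (m - 1) = m - 1 := by omega
      have e2 : r = m - 1 + 1 := by omega
      rw [e]
      have h4 := hopr t (m - 1) ht (by omega)
      rw [← e2] at h4
      exact h4
  have hVl : ∀ t r, r < m → V N m w x f t r = sm w (x r) 1 (N + 1) (f t r) := by
    intro t r hr
    unfold V
    have e : min r (m - 1) = r := by omega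
    rw [e]
  have hVr : ∀ t r, t ≤ n → r < m →
      V N m w x f t (r + 1) = sm w (x (r + 1)) 1 (N + 1) (f t r) := by
    intro t r ht hr
    unfold V
    have ha := hopV t (r + 1) ht (by omega)
    have hb := hopr t r ht hr
    exact le_antisymm (ha.2 _ hb.1) (hb.2 _ ha.1)
  have hSt : ∀ t, t ≤ n → Fz N (zt c v t) S := fun t ht =>
    fz_mono (fun k => h3.2 c v t n k ht) hB.feas
  have hIco : Ico 1 (N + 1) = Icc 1 N := by
    ext k
    simp only [Finset.mem_Ico, Finset.mem_Icc]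
    omega
  have hSO : ∀ r, r ≤ m → sm w (x r) 1 (N + 1) S ≤ 4 / 3 * O := by
    intro r hr
    have h4 := sm_le (N := N) hR.w_nonneg (hx r hr) S
    rw [hIco] at h4
    have h5 := hB.opt_le
    linarith
  have hfO : ∀ t r, t ≤ n → r < m → ∑ k ∈ Ico 1 (N + 1), w k * |(f t r k : ℝ)| ≤ 2 * O := by
    intro t r ht hr
    have h4 := le_sm (N := N) hR.w_nonneg (hx r hr.le) (f t r)
    have h5 := (hopl t r ht hr).2 S (hSt t ht)
    have h6 := hSO r hr.le
    linarith
  refine ⟨hm, hx, ?_, ?_, ?_, ?_, ?_⟩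
  · intro t r k ht hr
    exact h2 N w (zt c v t) (zt c v n) (x r) (f t r) S b hR.w_nonneg hB.w_pos (hx r hr.le)
      (fun k => h3.2 c v t n k ht) (hopl t r ht hr) hB.feas hB.bd k
  · intro t r ht hr
    unfold U V
    have ha := hopV t r ht.le hr
    have hb := hopV (t + 1) r ht hr
    have hc : Fz N (zt c v t) (f (t + 1) (min r (m - 1))) :=
      fz_mono (fun k => h3.2 c v t (t + 1) k (Nat.le_succ t)) hb.1
    have hd := ha.2 _ hc
    linarith
  · intro t r ht hr
    unfold U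
    rw [hVr (t + 1) r ht hr, hVr t r ht.le hr, hVl (t + 1) r hr, hVl t r hr]
    have ha := h1 N w (x r) (x (r + 1)) (f t r) (f (t + 1) r)
    unfold sl
    linarith
  · intro r hr
    have ha : ∑ t ∈ range n, U N m w x f t r = V N m w x f n r - V N m w x f 0 r := by
      unfold U
      exact Finset.sum_range_sub (fun t => V N m w x f t r) n
    have hb : V N m w x f 0 r = 0 := by
      unfold V sm
      refine Finset.sum_eq_zero fun k _ => ?_
      rw [hR.zero (min r (m - 1)) k (by omega)]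
      unfold ps
      simp
    have hc : V N m w x f n r ≤ sm w (x r) 1 (N + 1) S := by
      unfold V
      exact (hopV n r le_rfl hr).2 S hB.feas
    have hd := hSO r hr
    rw [ha, hb]
    linarith
  · intro t r ht hr
    unfold sl sg
    have ha := hfO t r ht.le hr
    have hb := hfO (t + 1) r ht hr
    have hc : |∑ k ∈ Ico 1 (N + 1), w k * ((f (t + 1) r k : ℝ) - (f t r k : ℝ))| ≤
        ∑ k ∈ Ico 1 (N + 1), (w k * |(f (t + 1) r k : ℝ)| + w k * |(f t r k : ℝ)|) := by
      refine le_trans (Finset.abs_sum_le_sum_abs _ _) (Finset.sum_le_sum fun k _ => ?_)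
      rw [abs_mul, abs_of_nonneg (hR.w_nonneg k), ← mul_add]
      refine mul_le_mul_of_nonneg_left ?_ (hR.w_nonneg k)
      exact abs_sub _ _
    rw [Finset.sum_add_distrib] at hc
    linarith

end Pool.Agent.MP_a4c1f4_lc.BL
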